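import Pool.Agent.TH855.Ball.Basic

set_option autoImplicit false

namespace Pool.TH855.BallMap

open Set Filter Topology

/-- padding a family of polynomials to `Fin N` -/
lemma pad {n N d : ℕ} {ι : Type} [Fintype ι] (hcard : Fintype.card ι ≤ N)
    (h : ι → MvPolynomial (Fin n) ℂ) (hd : ∀ i, (h i).totalDegree ≤ d)
    (hd' : ∃ i, (h i).totalDegree = d)
    (hb : ∀ z, ∑ i, ‖z i‖ ^ 2 < 1 → ∑ i, ‖MvPolynomial.eval z (h i)‖ ^ 2 < 1)
    (hs : ∀ z, ∑ i, ‖z i‖ ^ 2 = 1 → ∑ i, ‖MvPolynomial.eval z (h i)‖ ^ 2 = 1) :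
    ∃ g : Fin N → MvPolynomial (Fin n) ℂ, (∀ j, (g j).totalDegree ≤ d) ∧
      (∃ j, (g j).totalDegree = d) ∧
      IsProperBall n N (fun z j => MvPolynomial.eval z (g j)) := by
  classical
  obtain ⟨e⟩ : Nonempty (ι ↪ Fin N) := Function.Embedding.nonempty_of_card_le (by simpa using hcard)
  set g : Fin N → MvPolynomial (Fin n) ℂ := Function.extend e h 0 with hg
  have hge : ∀ i, g (e i) = h i := fun i => e.injective.extend_apply h 0 i
  have hgn : ∀ j, (¬ ∃ i, e i = j) → g j = 0 := fun j hj => by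
    rw [hg, Function.extend_apply' _ _ _ hj]; rfl
  have hsum : ∀ z : Fin n → ℂ, ∑ j, ‖MvPolynomial.eval z (g j)‖ ^ 2 =
      ∑ i, ‖MvPolynomial.eval z (h i)‖ ^ 2 := by
    intro z
    have h1 : ∑ j ∈ Finset.univ.map e, ‖MvPolynomial.eval z (g j)‖ ^ 2 =
        ∑ i, ‖MvPolynomial.eval z (h i)‖ ^ 2 := by
      rw [Finset.sum_map]
      apply Finset.sum_congr rfl
      intro i _
      rw [hge]
    rw [← h1]
    symm
    apply Finset.sum_subset (Finset.subset_univ _)
    intro j _ hj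
    rw [hgn j]
    · simp
    · rintro ⟨i, hi⟩
      exact hj (by simp [← hi])
  refine ⟨g, fun j => ?_, ?_, ?_⟩
  · by_cases hj : ∃ i, e i = j
    · obtain ⟨i, rfl⟩ := hj
      rw [hge]; exact hd i
    · rw [hgn j hj]; simp
  · obtain ⟨i, hi⟩ := hd'
    exact ⟨e i, by rw [hge]; exact hi⟩
  · apply isProperBall_of_closed
    · apply Continuous.continuousOn
      apply continuous_pi
      intro j
      exact MvPolynomial.continuous_eval (g j)
    · intro z hz
      rw [hsum]; exact hb z hz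
    · intro z hz
      rw [hsum, hs z hz]

/-- Whitney-type maps -/
lemma whitney {m N d : ℕ} (hd : 1 ≤ d) (hN : d * m + 1 ≤ N) :
    ∃ g : Fin N → MvPolynomial (Fin (m + 1)) ℂ, (∀ j, (g j).totalDegree ≤ d) ∧
      (∃ j, (g j).totalDegree = d) ∧
      IsProperBall (m + 1) N (fun z j => MvPolynomial.eval z (g j)) := by
  classical
  set h : Option (Fin d × Fin m) → MvPolynomial (Fin (m + 1)) ℂ := fun o =>
    match o with
    | none => MvPolynomial.X 0 ^ d
    | some (k, i) => MvPolynomial.X i.succ * MvPolynomial.X 0 ^ (k : ℕ) with hh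
  have hS : ∀ z : Fin (m + 1) → ℂ, ∑ o, ‖MvPolynomial.eval z (h o)‖ ^ 2 =
      (‖z 0‖ ^ 2) ^ d + (∑ i : Fin m, ‖z i.succ‖ ^ 2) * ∑ k ∈ Finset.range d, (‖z 0‖ ^ 2) ^ k := by
    intro z
    rw [Fintype.sum_option, Fintype.sum_prod_type]
    simp only [hh, map_mul, map_pow, MvPolynomial.eval_X, norm_mul, norm_pow, mul_pow]
    congr 1
    · ring
    · rw [Finset.mul_sum, Finset.sum_range]
      apply Finset.sum_congr rfl
      intro k _
      rw [Finset.sum_mul]
      apply Finset.sum_congr rfl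
      intro i _
      ring
  apply pad (d := d) (ι := Option (Fin d × Fin m)) (by simpa using hN) h
  · intro o
    rcases o with _ | ⟨k, i⟩
    · simp [hh, MvPolynomial.totalDegree_X_pow]
    · simp only [hh]
      refine (MvPolynomial.totalDegree_mul _ _).trans ?_
      rw [MvPolynomial.totalDegree_X, MvPolynomial.totalDegree_X_pow]
      omega
  · exact ⟨none, by simp [hh, MvPolynomial.totalDegree_X_pow]⟩
  · intro z hz
    rw [hS]
    rw [Fin.sum_univ_succ] at hz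
    have h1 : 1 ≤ ∑ k ∈ Finset.range d, (‖z 0‖ ^ 2) ^ k := by
      have : (‖z 0‖ ^ 2) ^ 0 ≤ ∑ k ∈ Finset.range d, (‖z 0‖ ^ 2) ^ k :=
        Finset.single_le_sum (f := fun k => (‖z 0‖ ^ 2) ^ k) (fun _ _ => by positivity)
          (Finset.mem_range.2 (by omega))
      simpa using this
    have h2 := mul_neg_geom_sum (‖z 0‖ ^ 2) d
    nlinarith
  · intro z hz
    rw [hS]
    rw [Fin.sum_univ_succ] at hz
    have h2 := mul_neg_geom_sum (‖z 0‖ ^ 2) d
    have h3 : ∑ i : Fin m, ‖z i.succ‖ ^ 2 = 1 - ‖z 0‖ ^ 2 := by linarith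
    rw [h3, h2]
    ring

/-- coefficients of the Lucas-type polynomials -/
def cc : ℕ → ℕ → ℕ
  | 0, 0 => 2
  | 0, _ + 1 => 0
  | 1, 0 => 1
  | 1, _ + 1 => 0
  | (m + 2), 0 => cc (m + 1) 0
  | (m + 2), (k + 1) => cc (m + 1) (k + 1) + cc m k

lemma cc_supp : ∀ m k : ℕ, m < 2 * k → cc m k = 0
  | 0, 0, h => by omega
  | 0, k + 1, _ => by simp [cc]
  | 1, 0, h => by omega
  | 1, k + 1, _ => by simp [cc]
  | (m + 2), 0, h => by omega
  | (m + 2), (k + 1), h => by
    rw [cc, cc_supp (m + 1) (k + 1) (by omega), cc_supp m k (by omega)]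

/-- the Lucas-type sums -/
noncomputable def TT (m : ℕ) (x y : ℝ) : ℝ :=
  ∑ k ∈ Finset.range (m + 1), (cc m k : ℝ) * x ^ (m - 2 * k) * y ^ k

lemma TT_rec (m : ℕ) (x y : ℝ) : TT (m + 2) x y = x * TT (m + 1) x y + y * TT m x y := by
  have h1 : TT (m + 2) x y = ∑ k ∈ Finset.range (m + 1), (cc (m + 2) (k + 1) : ℝ) *
      x ^ (m + 2 - 2 * (k + 1)) * y ^ (k + 1) + (cc (m + 1) 0 : ℝ) * x ^ (m + 2) := by
    unfold TT
    rw [Finset.sum_range_succ' (fun k => (cc (m + 2) k : ℝ) * x ^ (m + 2 - 2 * k) * y ^ k) (m + 2),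
      Finset.sum_range_succ (fun k => (cc (m + 2) (k + 1) : ℝ) *
      x ^ (m + 2 - 2 * (k + 1)) * y ^ (k + 1)) (m + 1)]
    have e0 : (cc (m + 2) (m + 1 + 1) : ℝ) = 0 := by
      rw [cc_supp (m + 2) (m + 1 + 1) (by omega)]; simp
    have e4 : cc (m + 2) 0 = cc (m + 1) 0 := by rw [cc]
    rw [e0, e4]
    simp
  have h2 : TT (m + 1) x y = ∑ k ∈ Finset.range (m + 1), (cc (m + 1) (k + 1) : ℝ) *
      x ^ (m + 1 - 2 * (k + 1)) * y ^ (k + 1) + (cc (m + 1) 0 : ℝ) * x ^ (m + 1) := by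
    unfold TT
    rw [Finset.sum_range_succ' (fun k => (cc (m + 1) k : ℝ) * x ^ (m + 1 - 2 * k) * y ^ k) (m + 1)]
    simp
  rw [h1, h2, TT, mul_add, Finset.mul_sum, Finset.mul_sum]
  have e1 : ∑ k ∈ Finset.range (m + 1), (cc (m + 2) (k + 1) : ℝ) * x ^ (m + 2 - 2 * (k + 1)) *
      y ^ (k + 1) = ∑ k ∈ Finset.range (m + 1),
        x * ((cc (m + 1) (k + 1) : ℝ) * x ^ (m + 1 - 2 * (k + 1)) * y ^ (k + 1)) +
      ∑ k ∈ Finset.range (m + 1), y * ((cc m k : ℝ) * x ^ (m - 2 * k) * y ^ k) := by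
    rw [← Finset.sum_add_distrib]
    apply Finset.sum_congr rfl
    intro k _
    rw [cc]
    push_cast
    have e2 : m + 2 - 2 * (k + 1) = m - 2 * k := by omega
    rw [e2]
    by_cases hk : 2 * (k + 1) ≤ m + 1
    · have e3 : m - 2 * k = (m + 1 - 2 * (k + 1)) + 1 := by omega
      rw [e3]
      ring
    · rw [cc_supp (m + 1) (k + 1) (by omega)]
      push_cast
      ring
  rw [e1]
  ring

lemma TT_eq (x y : ℝ) (h : x + y = 1) : ∀ m : ℕ, TT m x y = 1 + (-y) ^ m
  | 0 => by simp [TT, cc]; norm_num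
  | 1 => by
    simp [TT, cc, Finset.sum_range_succ]
    linarith
  | (m + 2) => by
    rw [TT_rec, TT_eq x y h (m + 1), TT_eq x y h m]
    have hx : x = 1 - y := by linarith
    rw [hx]
    ring

lemma TT_odd (r : ℕ) (x y : ℝ) : TT (2 * r + 1) x y =
    ∑ k : Fin (r + 1), (cc (2 * r + 1) k : ℝ) * x ^ (2 * r + 1 - 2 * (k : ℕ)) * y ^ (k : ℕ) := by
  rw [← Finset.sum_range (fun k => (cc (2 * r + 1) k : ℝ) * x ^ (2 * r + 1 - 2 * k) * y ^ k)]
  unfold TT
  symm
  apply Finset.sum_subset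
  · intro k hk
    simp only [Finset.mem_range] at hk ⊢
    omega
  · intro k _ hk
    simp only [Finset.mem_range, not_lt] at hk
    rw [cc_supp (2 * r + 1) k (by omega)]
    simp

lemma TT_mono (m : ℕ) {x y y' : ℝ} (hx : 0 ≤ x) (hy : 0 ≤ y) (h : y ≤ y') :
    TT m x y ≤ TT m x y' := by
  unfold TT
  apply Finset.sum_le_sum
  intro k _
  gcongr

/-- the sharp maps in dimension two -/
lemma sharp_two {N d : ℕ} (hd : 1 ≤ d) (hN : d + 3 ≤ 2 * N) :
    ∃ g : Fin N → MvPolynomial (Fin 2) ℂ, (∀ j, (g j).totalDegree ≤ d) ∧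
      (∃ j, (g j).totalDegree = d) ∧
      IsProperBall 2 N (fun z j => MvPolynomial.eval z (g j)) := by
  classical
  -- the common part
  have hnorm : ∀ (z : Fin 2 → ℂ) (a : ℕ) (i j : ℕ),
      ‖MvPolynomial.eval z (MvPolynomial.C ((Real.sqrt a : ℝ) : ℂ) * (MvPolynomial.X 0 ^ i *
        MvPolynomial.X 1 ^ j))‖ ^ 2 = (a : ℝ) * (‖z 0‖ ^ 2) ^ i * (‖z 1‖ ^ 2) ^ j := by
    intro z a i j
    simp only [map_mul, map_pow, MvPolynomial.eval_X, MvPolynomial.eval_C, norm_mul, norm_pow,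
      mul_pow, Complex.norm_real, Real.norm_eq_abs, sq_abs]
    rw [Real.sq_sqrt (by positivity)]
    ring
  have hdeg : ∀ (a : ℕ) (i j : ℕ),
      (MvPolynomial.C ((Real.sqrt a : ℝ) : ℂ) * (MvPolynomial.X (0 : Fin 2) ^ i *
        MvPolynomial.X 1 ^ j)).totalDegree ≤ i + j := by
    intro a i j
    refine (MvPolynomial.totalDegree_mul _ _).trans ?_
    rw [MvPolynomial.totalDegree_C, zero_add]
    refine (MvPolynomial.totalDegree_mul _ _).trans ?_
    rw [MvPolynomial.totalDegree_X_pow, MvPolynomial.totalDegree_X_pow]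
  rcases Nat.even_or_odd' d with ⟨r', hr' | hr'⟩
  · -- even degree
    obtain ⟨r, rfl⟩ : ∃ r, r' = r + 1 := ⟨r' - 1, by omega⟩
    set h : Fin (r + 1) ⊕ Fin 2 → MvPolynomial (Fin 2) ℂ := fun o =>
      match o with
      | Sum.inl k => MvPolynomial.C ((Real.sqrt (cc (2 * r + 1) k) : ℝ) : ℂ) *
          (MvPolynomial.X 0 ^ (2 * r + 1 - 2 * (k : ℕ)) * MvPolynomial.X 1 ^ (k : ℕ))
      | Sum.inr 0 => MvPolynomial.X 0 * MvPolynomial.X 1 ^ (2 * r + 1)
      | Sum.inr 1 => MvPolynomial.X 1 ^ (2 * r + 2) with hh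
    have hS : ∀ z : Fin 2 → ℂ, ∑ o, ‖MvPolynomial.eval z (h o)‖ ^ 2 =
        TT (2 * r + 1) (‖z 0‖ ^ 2) (‖z 1‖ ^ 2) + (‖z 0‖ ^ 2 * (‖z 1‖ ^ 2) ^ (2 * r + 1) +
          (‖z 1‖ ^ 2) ^ (2 * r + 2)) := by
      intro z
      rw [Fintype.sum_sum_type, TT_odd, Fin.sum_univ_two]
      simp only [hh, hnorm]
      congr 1
      simp only [map_mul, map_pow, MvPolynomial.eval_X, norm_mul, norm_pow, mul_pow]
      ring
    apply pad (d := d) (ι := Fin (r + 1) ⊕ Fin 2) (by simp; omega) h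
    · intro o
      rcases o with k | k
      · simp only [hh]
        refine (hdeg _ _ _).trans ?_
        have := k.2
        omega
      · fin_cases k
        · simp only [hh]
          refine (MvPolynomial.totalDegree_mul _ _).trans ?_
          rw [MvPolynomial.totalDegree_X, MvPolynomial.totalDegree_X_pow]
          omega
        · simp only [hh]
          show (MvPolynomial.X (1 : Fin 2) ^ (2 * r + 2) : MvPolynomial (Fin 2) ℂ).totalDegree ≤ d
          rw [MvPolynomial.totalDegree_X_pow]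
          omega
    · refine ⟨Sum.inr 1, ?_⟩
      show (MvPolynomial.X (1 : Fin 2) ^ (2 * r + 2) : MvPolynomial (Fin 2) ℂ).totalDegree = d
      rw [MvPolynomial.totalDegree_X_pow]
      omega
    · intro z hz
      rw [hS]
      rw [Fin.sum_univ_two] at hz
      set x := ‖z 0‖ ^ 2 with hx
      set y := ‖z 1‖ ^ 2 with hy
      have hx0 : 0 ≤ x := by positivity
      have hy0 : 0 ≤ y := by positivity
      have hyy : y < 1 - x := by linarith
      have h1 := TT_mono (2 * r + 1) hx0 hy0 hyy.le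
      rw [TT_eq x (1 - x) (by ring)] at h1
      have h2 : (-(1 - x)) ^ (2 * r + 1) = -(1 - x) ^ (2 * r + 1) := Odd.neg_pow ⟨r, rfl⟩ _
      rw [h2] at h1
      have h3 : y ^ (2 * r + 1) < (1 - x) ^ (2 * r + 1) := pow_lt_pow_left₀ hyy hy0 (by omega)
      have h4 : x * y ^ (2 * r + 1) + y ^ (2 * r + 2) = y ^ (2 * r + 1) * (x + y) := by ring
      have h5 : y ^ (2 * r + 1) * (x + y) ≤ y ^ (2 * r + 1) := by
        have : 0 ≤ y ^ (2 * r + 1) := by positivity
        nlinarith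
      linarith
    · intro z hz
      rw [hS]
      rw [Fin.sum_univ_two] at hz
      set x := ‖z 0‖ ^ 2 with hx
      set y := ‖z 1‖ ^ 2 with hy
      rw [TT_eq x y hz]
      have h2 : (-y) ^ (2 * r + 1) = -y ^ (2 * r + 1) := Odd.neg_pow ⟨r, rfl⟩ _
      have h4 : x * y ^ (2 * r + 1) + y ^ (2 * r + 2) = y ^ (2 * r + 1) * (x + y) := by ring
      rw [h2, h4, hz]
      ring
  · -- odd degree
    set r := r' with hr
    set h : Option (Fin (r + 1)) → MvPolynomial (Fin 2) ℂ := fun o =>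
      match o with
      | some k => MvPolynomial.C ((Real.sqrt (cc (2 * r + 1) k) : ℝ) : ℂ) *
          (MvPolynomial.X 0 ^ (2 * r + 1 - 2 * (k : ℕ)) * MvPolynomial.X 1 ^ (k : ℕ))
      | none => MvPolynomial.X 1 ^ (2 * r + 1) with hh
    have hS : ∀ z : Fin 2 → ℂ, ∑ o, ‖MvPolynomial.eval z (h o)‖ ^ 2 =
        (‖z 1‖ ^ 2) ^ (2 * r + 1) + TT (2 * r + 1) (‖z 0‖ ^ 2) (‖z 1‖ ^ 2) := by
      intro z
      rw [Fintype.sum_option, TT_odd]
      simp only [hh, hnorm]
      congr 1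
      simp only [map_pow, MvPolynomial.eval_X, norm_pow]
      ring
    apply pad (d := d) (ι := Option (Fin (r + 1))) (by simp; omega) h
    · intro o
      rcases o with _ | k
      · simp only [hh]
        rw [MvPolynomial.totalDegree_X_pow]
        omega
      · simp only [hh]
        refine (hdeg _ _ _).trans ?_
        have := k.2
        omega
    · refine ⟨none, ?_⟩
      simp only [hh]
      rw [MvPolynomial.totalDegree_X_pow]
      omega
    · intro z hz
      rw [hS]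
      rw [Fin.sum_univ_two] at hz
      set x := ‖z 0‖ ^ 2 with hx
      set y := ‖z 1‖ ^ 2 with hy
      have hx0 : 0 ≤ x := by positivity
      have hy0 : 0 ≤ y := by positivity
      have hyy : y < 1 - x := by linarith
      have h1 := TT_mono (2 * r + 1) hx0 hy0 hyy.le
      rw [TT_eq x (1 - x) (by ring)] at h1
      have h2 : (-(1 - x)) ^ (2 * r + 1) = -(1 - x) ^ (2 * r + 1) := Odd.neg_pow ⟨r, rfl⟩ _
      rw [h2] at h1
      have h3 : y ^ (2 * r + 1) < (1 - x) ^ (2 * r + 1) := pow_lt_pow_left₀ hyy hy0 (by omega)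
      linarith
    · intro z hz
      rw [hS]
      rw [Fin.sum_univ_two] at hz
      set x := ‖z 0‖ ^ 2 with hx
      set y := ‖z 1‖ ^ 2 with hy
      rw [TT_eq x y hz]
      have h2 : (-y) ^ (2 * r + 1) = -y ^ (2 * r + 1) := Odd.neg_pow ⟨r, rfl⟩ _
      rw [h2]
      ring

end Pool.TH855.BallMap
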