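import Pool.Agent.TH855.Ball.Basic

set_option autoImplicit false

namespace Pool.TH855.BallMap

open Set Filter Topology

/-- the ball automorphism moving `0` to `s e_1` -/
noncomputable def phi (m : ℕ) (s : ℝ) (z : Fin (m + 1) → ℂ) : Fin (m + 1) → ℂ :=
  Fin.cons ((z 0 + s) / (1 + s * z 0))
    (fun i : Fin m => (Real.sqrt (1 - s ^ 2) : ℂ) * z i.succ / (1 + s * z 0))

variable {m : ℕ}

lemma diffOn_div {E : Type*} [NormedAddCommGroup E] [NormedSpace ℂ E] {f g : E → ℂ} {S : Set E}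
    (hf : DifferentiableOn ℂ f S) (hg : DifferentiableOn ℂ g S) (h : ∀ x ∈ S, g x ≠ 0) :
    DifferentiableOn ℂ (fun x => f x / g x) S := by
  simp only [div_eq_mul_inv]
  exact hf.mul (hg.inv h)

lemma norm_zero_le_one {z : Fin (m + 1) → ℂ} (hz : ∑ i, ‖z i‖ ^ 2 ≤ 1) : ‖z 0‖ ≤ 1 := by
  have : ‖z 0‖ ^ 2 ≤ ∑ i, ‖z i‖ ^ 2 :=
    Finset.single_le_sum (f := fun i => ‖z i‖ ^ 2) (fun _ _ => by positivity) (Finset.mem_univ 0)
  have h1 : ‖z 0‖ ^ 2 ≤ 1 := this.trans hz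
  nlinarith [norm_nonneg (z 0)]

lemma one_add_mul_ne {s : ℝ} (hs : |s| < 1) {w : ℂ} (hw : ‖w‖ ≤ 1) : (1 + s * w : ℂ) ≠ 0 := by
  intro h
  have h1 : (s * w : ℂ) = -1 := by linear_combination h
  have h2 : ‖(s * w : ℂ)‖ = 1 := by rw [h1]; simp
  rw [norm_mul, Complex.norm_real, Real.norm_eq_abs] at h2
  have : |s| * ‖w‖ < 1 := by
    have := mul_le_mul_of_nonneg_left hw (abs_nonneg s)
    linarith
  linarith

lemma phi_sum {s : ℝ} (hs : |s| < 1) {z : Fin (m + 1) → ℂ} (hz : ∑ i, ‖z i‖ ^ 2 ≤ 1) :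
    (1 - ∑ j, ‖phi m s z j‖ ^ 2) * ‖(1 + s * z 0 : ℂ)‖ ^ 2 =
      (1 - s ^ 2) * (1 - ∑ i, ‖z i‖ ^ 2) := by
  have hne := one_add_mul_ne hs (norm_zero_le_one hz)
  have hn : ‖(1 + s * z 0 : ℂ)‖ ≠ 0 := norm_ne_zero_iff.2 hne
  have hs2 : 0 ≤ 1 - s ^ 2 := by
    have := abs_lt.1 hs
    nlinarith [this.1, this.2]
  rw [Fin.sum_univ_succ, Fin.sum_univ_succ (f := fun i => ‖z i‖ ^ 2)]
  simp only [phi, Fin.cons_zero, Fin.cons_succ, norm_div, norm_mul, Complex.norm_real,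
    Real.norm_eq_abs, abs_of_nonneg (Real.sqrt_nonneg _), div_pow, mul_pow, Real.sq_sqrt hs2]
  rw [← Finset.sum_div, ← Finset.mul_sum]
  have e1 : ‖(1 + s * z 0 : ℂ)‖ ^ 2 - ‖z 0 + s‖ ^ 2 = (1 - s ^ 2) * (1 - ‖z 0‖ ^ 2) := by
    rw [← Complex.normSq_eq_norm_sq, ← Complex.normSq_eq_norm_sq, ← Complex.normSq_eq_norm_sq]
    simp only [Complex.normSq_apply, Complex.add_re, Complex.one_re, Complex.mul_re,
      Complex.ofReal_re, Complex.ofReal_im, Complex.add_im, Complex.one_im, Complex.mul_im]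
    ring
  generalize ‖(1 + s * z 0 : ℂ)‖ = D at hn e1 ⊢
  field_simp
  linear_combination e1

lemma phi_differentiableOn {s : ℝ} (hs : |s| < 1) :
    DifferentiableOn ℂ (phi m s) {z | ∑ i, ‖z i‖ ^ 2 ≤ 1} := by
  rw [differentiableOn_pi]
  intro i
  refine Fin.cases ?_ (fun i => ?_) i
  · simp only [phi, Fin.cons_zero]
    apply diffOn_div (by fun_prop) (by fun_prop)
    intro z hz
    exact one_add_mul_ne hs (norm_zero_le_one hz)
  · simp only [phi, Fin.cons_succ]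
    apply diffOn_div (by fun_prop) (by fun_prop)
    intro z hz
    exact one_add_mul_ne hs (norm_zero_le_one hz)

lemma Ball_subset (n : ℕ) : Ball n ⊆ {z | ∑ i, ‖z i‖ ^ 2 ≤ 1} := fun z hz => by
  have h1 : ∑ i, ‖z i‖ ^ 2 < 1 := hz
  exact h1.le

lemma phi_proper {s : ℝ} (hs : |s| < 1) : IsProperBall (m + 1) (m + 1) (phi m s) := by
  have hs2 : 0 < 1 - s ^ 2 := by
    have := abs_lt.1 hs
    nlinarith [this.1, this.2]
  apply isProperBall_of_closed (phi_differentiableOn hs).continuousOn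
  · intro z hz
    have h1 := phi_sum hs hz.le
    have hne := one_add_mul_ne hs (norm_zero_le_one hz.le)
    have hn : 0 < ‖(1 + s * z 0 : ℂ)‖ ^ 2 := by positivity
    have h2 : 0 < (1 - ∑ j, ‖phi m s z j‖ ^ 2) * ‖(1 + s * z 0 : ℂ)‖ ^ 2 := by
      rw [h1]
      exact mul_pos hs2 (by linarith)
    have := (pos_iff_pos_of_mul_pos h2).2 hn
    linarith
  · intro z hz
    have h1 := phi_sum hs hz.le
    have hne := one_add_mul_ne hs (norm_zero_le_one hz.le)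
    have hn : ‖(1 + s * z 0 : ℂ)‖ ^ 2 ≠ 0 := by positivity
    rw [hz, sub_self, mul_zero] at h1
    have := (mul_eq_zero.1 h1).resolve_right hn
    linarith

lemma phi_zero {z : Fin (m + 1) → ℂ} : phi m 0 z = z := by
  funext i
  refine Fin.cases ?_ (fun i => ?_) i
  · simp [phi]
  · simp [phi]

end Pool.TH855.BallMap
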