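import Mathlib

set_option autoImplicit false

namespace Pool.TH855.BallMap

open Set Filter Topology

/-- The open unit ball of `ℂ^n`. -/
def Ball (n : ℕ) : Set (Fin n → ℂ) := {z | ∑ i, ‖z i‖ ^ 2 < 1}

/-- `g` maps the ball to the ball and is proper. -/
def IsProperBall (n N : ℕ) (g : (Fin n → ℂ) → (Fin N → ℂ)) : Prop :=
  MapsTo g (Ball n) (Ball N) ∧
  ∀ K : Set (Fin N → ℂ), IsCompact K → K ⊆ Ball N → IsCompact (Ball n ∩ g ⁻¹' K)

/-- homotopy through proper holomorphic maps all of which lie in the class `C`. -/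
def Homotopic (n N : ℕ) (C : ((Fin n → ℂ) → (Fin N → ℂ)) → Prop)
    (f g : (Fin n → ℂ) → (Fin N → ℂ)) : Prop :=
  ∃ H : ℝ → (Fin n → ℂ) → (Fin N → ℂ),
    ContinuousOn (fun x : ℝ × (Fin n → ℂ) => H x.1 x.2) (Icc (0 : ℝ) 1 ×ˢ Ball n) ∧
    (∀ t ∈ Icc (0 : ℝ) 1, DifferentiableOn ℂ (H t) (Ball n) ∧ IsProperBall n N (H t) ∧ C (H t)) ∧
    (∀ z ∈ Ball n, H 0 z = f z ∧ H 1 z = g z)

variable {n N M : ℕ} {C : ((Fin n → ℂ) → (Fin N → ℂ)) → Prop}

lemma IsProperBall.congr {f g : (Fin n → ℂ) → (Fin N → ℂ)} (hf : IsProperBall n N f)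
    (h : ∀ z ∈ Ball n, g z = f z) : IsProperBall n N g := by
  refine ⟨fun z hz => by rw [h z hz]; exact hf.1 hz, fun K hK hKB => ?_⟩
  have : Ball n ∩ g ⁻¹' K = Ball n ∩ f ⁻¹' K := by
    ext z
    constructor
    · rintro ⟨h1, h2⟩
      refine ⟨h1, ?_⟩
      have := h z h1
      simp only [mem_preimage] at h2 ⊢
      rwa [← this]
    · rintro ⟨h1, h2⟩
      refine ⟨h1, ?_⟩
      have := h z h1
      simp only [mem_preimage] at h2 ⊢
      rwa [this]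
  rw [this]
  exact hf.2 K hK hKB

lemma IsProperBall.comp {f : (Fin n → ℂ) → (Fin N → ℂ)} {g : (Fin N → ℂ) → (Fin M → ℂ)}
    (hf : IsProperBall n N f) (hg : IsProperBall N M g) : IsProperBall n M (g ∘ f) := by
  refine ⟨hg.1.comp hf.1, fun K hK hKB => ?_⟩
  have h1 := hg.2 K hK hKB
  have h2 := hf.2 _ h1 inter_subset_left
  have : Ball n ∩ (g ∘ f) ⁻¹' K = Ball n ∩ f ⁻¹' (Ball N ∩ g ⁻¹' K) := by
    ext z
    constructor
    · rintro ⟨h1, h2⟩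
      exact ⟨h1, hf.1 h1, h2⟩
    · rintro ⟨h1, _, h2⟩
      exact ⟨h1, h2⟩
  rw [this]
  exact h2

lemma isCompact_closed_ball (n : ℕ) : IsCompact {z : Fin n → ℂ | ∑ i, ‖z i‖ ^ 2 ≤ 1} := by
  have hc : IsClosed {z : Fin n → ℂ | ∑ i, ‖z i‖ ^ 2 ≤ 1} :=
    isClosed_le (by fun_prop) continuous_const
  have hs : {z : Fin n → ℂ | ∑ i, ‖z i‖ ^ 2 ≤ 1} ⊆ Metric.closedBall 0 1 := by
    intro z hz
    have hz' : ∑ i, ‖z i‖ ^ 2 ≤ 1 := hz
    rw [mem_closedBall_zero_iff]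
    refine (pi_norm_le_iff_of_nonneg zero_le_one).2 fun i => ?_
    have : ‖z i‖ ^ 2 ≤ ∑ i, ‖z i‖ ^ 2 :=
      Finset.single_le_sum (f := fun i => ‖z i‖ ^ 2) (fun _ _ => by positivity) (Finset.mem_univ i)
    have h1 : ‖z i‖ ^ 2 ≤ 1 := this.trans hz'
    nlinarith [norm_nonneg (z i)]
  exact (isCompact_closedBall _ _).of_isClosed_subset hc hs

lemma isOpen_Ball (n : ℕ) : IsOpen (Ball n) :=
  isOpen_lt (by fun_prop) continuous_const

/-- criterion for properness -/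
lemma isProperBall_of_closed {g : (Fin n → ℂ) → (Fin N → ℂ)}
    (hc : ContinuousOn g {z | ∑ i, ‖z i‖ ^ 2 ≤ 1})
    (hb : ∀ z, ∑ i, ‖z i‖ ^ 2 < 1 → ∑ j, ‖g z j‖ ^ 2 < 1)
    (hs : ∀ z, ∑ i, ‖z i‖ ^ 2 = 1 → 1 ≤ ∑ j, ‖g z j‖ ^ 2) : IsProperBall n N g := by
  refine ⟨fun z hz => hb z hz, fun K hK hKB => ?_⟩
  have : Ball n ∩ g ⁻¹' K = {z | ∑ i, ‖z i‖ ^ 2 ≤ 1} ∩ g ⁻¹' K := by
    ext z
    constructor
    · rintro ⟨h1, h2⟩
      have h1' : ∑ i, ‖z i‖ ^ 2 < 1 := h1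
      exact ⟨h1'.le, h2⟩
    · rintro ⟨h1, h2⟩
      refine ⟨?_, h2⟩
      rcases lt_or_eq_of_le (show ∑ i, ‖z i‖ ^ 2 ≤ 1 from h1) with h | h
      · exact h
      · have h3 := hs z h
        have h4 : ∑ j, ‖g z j‖ ^ 2 < 1 := hKB h2
        linarith
  rw [this]
  have hcl : IsClosed ({z | ∑ i, ‖z i‖ ^ 2 ≤ 1} ∩ g ⁻¹' K) :=
    hc.preimage_isClosed_of_isClosed (isCompact_closed_ball n).isClosed hK.isClosed
  exact (isCompact_closed_ball n).of_isClosed_subset hcl inter_subset_left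

lemma Homotopic.symm {f g : (Fin n → ℂ) → (Fin N → ℂ)} (h : Homotopic n N C f g) :
    Homotopic n N C g f := by
  obtain ⟨H, h1, h2, h3⟩ := h
  refine ⟨fun t => H (1 - t), ?_, fun t ht => h2 _ ⟨by linarith [ht.2], by linarith [ht.1]⟩,
    fun z hz => ?_⟩
  · have : ContinuousOn (fun x : ℝ × (Fin n → ℂ) => ((1 - x.1, x.2) : ℝ × (Fin n → ℂ)))
      (Icc (0 : ℝ) 1 ×ˢ Ball n) := by fun_prop
    exact h1.comp this (fun x hx => ⟨⟨by linarith [hx.1.2], by linarith [hx.1.1]⟩, hx.2⟩)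
  · simp only [sub_zero, sub_self]
    exact ⟨(h3 z hz).2, (h3 z hz).1⟩

lemma Homotopic.trans {f g k : (Fin n → ℂ) → (Fin N → ℂ)} (h : Homotopic n N C f g)
    (h' : Homotopic n N C g k) : Homotopic n N C f k := by
  classical
  obtain ⟨H, h1, h2, h3⟩ := h
  obtain ⟨H', h1', h2', h3'⟩ := h'
  refine ⟨fun t => if t ≤ 1 / 2 then H (2 * t) else H' (2 * t - 1), ?_, fun t ht => ?_,
    fun z hz => ?_⟩
  · have e : (fun x : ℝ × (Fin n → ℂ) =>
        (if x.1 ≤ 1 / 2 then H (2 * x.1) else H' (2 * x.1 - 1)) x.2) =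
        fun x : ℝ × (Fin n → ℂ) =>
        (if x.1 ≤ 1 / 2 then H (2 * x.1) x.2 else H' (2 * x.1 - 1) x.2) := by
      funext x
      split_ifs <;> rfl
    rw [e]
    apply ContinuousOn.if
    · rintro x ⟨hx1, hx2⟩
      have : x.1 = 1 / 2 := by
        have := frontier_le_subset_eq (f := fun x : ℝ × (Fin n → ℂ) => x.1)
          (g := fun _ => (1 / 2 : ℝ)) continuous_fst continuous_const hx2
        exact this
      rw [this]
      norm_num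
      rw [(h3 x.2 hx1.2).2, (h3' x.2 hx1.2).1]
    · have hcl : closure {x : ℝ × (Fin n → ℂ) | x.1 ≤ 1 / 2} = {x | x.1 ≤ 1 / 2} :=
        (isClosed_le continuous_fst continuous_const).closure_eq
      rw [hcl]
      have : ContinuousOn (fun x : ℝ × (Fin n → ℂ) => ((2 * x.1, x.2) : ℝ × (Fin n → ℂ)))
        ((Icc (0 : ℝ) 1 ×ˢ Ball n) ∩ {x | x.1 ≤ 1 / 2}) := by fun_prop
      refine h1.comp this ?_
      rintro x ⟨⟨hx1, hx3⟩, hx2⟩
      have hx2' : x.1 ≤ 1 / 2 := hx2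
      exact ⟨⟨by simp; linarith [hx1.1], by simp; linarith⟩, hx3⟩
    · have hcl : closure {x : ℝ × (Fin n → ℂ) | ¬ x.1 ≤ 1 / 2} ⊆ {x | 1 / 2 ≤ x.1} := by
        apply closure_minimal
        · intro x hx
          simp only [mem_ofPred_eq, not_le] at hx ⊢
          exact hx.le
        · exact isClosed_le continuous_const continuous_fst
      have : ContinuousOn (fun x : ℝ × (Fin n → ℂ) => ((2 * x.1 - 1, x.2) : ℝ × (Fin n → ℂ)))
        ((Icc (0 : ℝ) 1 ×ˢ Ball n) ∩ {x | 1 / 2 ≤ x.1}) := by fun_prop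
      have h5 := h1'.comp this (by
        rintro x ⟨⟨hx1, hx3⟩, hx2⟩
        have hx2' : 1 / 2 ≤ x.1 := hx2
        exact ⟨⟨by simp; linarith, by simp; linarith [hx1.2]⟩, hx3⟩)
      exact h5.mono (inter_subset_inter_right _ hcl)
  · by_cases h : t ≤ 1 / 2
    · simp only [h, if_true]
      exact h2 _ ⟨by linarith [ht.1], by linarith⟩
    · simp only [h, if_false]
      push Not at h
      exact h2' _ ⟨by linarith, by linarith [ht.2]⟩
  · constructor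
    · simp only [show (0:ℝ) ≤ 1/2 by norm_num, if_true, mul_zero]
      exact (h3 z hz).1
    · simp only [show ¬ ((1:ℝ) ≤ 1/2) by norm_num, if_false, mul_one]
      norm_num
      exact (h3' z hz).2

lemma Homotopic.congr {f g f' g' : (Fin n → ℂ) → (Fin N → ℂ)} (h : Homotopic n N C f g)
    (hf : ∀ z ∈ Ball n, f' z = f z) (hg : ∀ z ∈ Ball n, g' z = g z) : Homotopic n N C f' g' := by
  obtain ⟨H, h1, h2, h3⟩ := h
  exact ⟨H, h1, h2, fun z hz => ⟨by rw [hf z hz]; exact (h3 z hz).1,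
    by rw [hg z hz]; exact (h3 z hz).2⟩⟩

lemma Homotopic.comp {f g : (Fin n → ℂ) → (Fin N → ℂ)} (h : Homotopic n N C f g)
    {T : (Fin n → ℂ) → (Fin n → ℂ)} {V : (Fin N → ℂ) → (Fin N → ℂ)}
    (hT : IsProperBall n n T) (hV : IsProperBall N N V)
    (hTd : DifferentiableOn ℂ T (Ball n)) (hVd : DifferentiableOn ℂ V (Ball N))
    (hC : ∀ h, C h → C (V ∘ h ∘ T)) :
    Homotopic n N C (V ∘ f ∘ T) (V ∘ g ∘ T) := by
  obtain ⟨H, h1, h2, h3⟩ := h
  refine ⟨fun t => V ∘ H t ∘ T, ?_, fun t ht => ⟨?_, ?_, hC _ (h2 t ht).2.2⟩, fun z hz => ?_⟩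
  · have hT' : ContinuousOn (fun x : ℝ × (Fin n → ℂ) => ((x.1, T x.2) : ℝ × (Fin n → ℂ)))
      (Icc (0 : ℝ) 1 ×ˢ Ball n) := by
      apply ContinuousOn.prodMk continuousOn_fst
      exact hTd.continuousOn.comp continuousOn_snd (fun x hx => hx.2)
    have h4 := h1.comp hT' (fun x hx => ⟨hx.1, hT.1 hx.2⟩)
    exact hVd.continuousOn.comp h4 (fun x hx => (h2 x.1 hx.1).2.1.1 (hT.1 hx.2))
  · exact hVd.comp ((h2 t ht).1.comp hTd hT.1) ((h2 t ht).2.1.1.comp hT.1)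
  · exact (hT.comp (h2 t ht).2.1).comp hV
  · simp only [Function.comp]
    rw [(h3 _ (hT.1 hz)).1, (h3 _ (hT.1 hz)).2]
    exact ⟨rfl, rfl⟩

end Pool.TH855.BallMap
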