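import Pool.Agent.TH855.Ball.Expn

set_option autoImplicit false

namespace Pool.TH855.BallMap

open Set Filter Topology

variable {m : ℕ}

noncomputable def WW (u : Fin m → ℂ) (y : ℝ) : ℂ := ((∑ i, ‖u i‖ ^ 2 : ℝ) : ℂ) + y * Complex.I
noncomputable def DD (u : Fin m → ℂ) (y δ : ℝ) : ℂ := 1 + (δ : ℂ) ^ 2 * WW u y
noncomputable def GG (u : Fin m → ℂ) (y δ : ℝ) : ℂ := 2 * WW u y / DD u y δ
noncomputable def VV (u : Fin m → ℂ) (y δ : ℝ) : Fin m → ℂ := fun i => 2 * u i / DD u y δ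

lemma WW_re (u : Fin m → ℂ) (y : ℝ) : (WW u y).re = ∑ i, ‖u i‖ ^ 2 := by
  simp only [WW, Complex.add_re, Complex.ofReal_re, Complex.mul_re, Complex.I_re, Complex.ofReal_im,
    Complex.I_im]
  ring

lemma WW_im (u : Fin m → ℂ) (y : ℝ) : (WW u y).im = y := by
  simp only [WW, Complex.add_im, Complex.ofReal_im, Complex.mul_im, Complex.I_re, Complex.ofReal_re,
    Complex.I_im]
  ring

lemma DD_re (u : Fin m → ℂ) (y δ : ℝ) : (DD u y δ).re = 1 + δ ^ 2 * ∑ i, ‖u i‖ ^ 2 := by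
  rw [DD, ← WW_re u y]
  simp [pow_two]

lemma DD_ne (u : Fin m → ℂ) (y δ : ℝ) : DD u y δ ≠ 0 := by
  intro h
  have h1 := DD_re u y δ
  rw [h, Complex.zero_re] at h1
  have : 0 ≤ δ ^ 2 * ∑ i, ‖u i‖ ^ 2 := by positivity
  linarith

lemma sphere_param (u : Fin m → ℂ) (y δ : ℝ) :
    ∑ i, ‖pt m δ (GG u y δ) (VV u y δ) i‖ ^ 2 = 1 := by
  have hD := DD_ne u y δ
  have hn : ‖DD u y δ‖ ≠ 0 := norm_ne_zero_iff.2 hD
  rw [Fin.sum_univ_succ]
  simp only [pt, Fin.cons_zero, Fin.cons_succ]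
  have e1 : (1 - (δ : ℂ) ^ 2 * GG u y δ) = (1 - (δ : ℂ) ^ 2 * WW u y) / DD u y δ := by
    rw [GG, eq_div_iff hD]
    field_simp
    rw [DD]
    ring
  have e2 : ∀ i, ‖(δ : ℂ) * VV u y δ i‖ ^ 2 = 4 * δ ^ 2 * ‖u i‖ ^ 2 / ‖DD u y δ‖ ^ 2 := by
    intro i
    simp only [VV, norm_mul, norm_div, Complex.norm_real, Real.norm_eq_abs, Complex.norm_ofNat,
      mul_pow, div_pow, sq_abs]
    ring
  rw [e1, norm_div, div_pow]
  simp only [e2]
  rw [← Finset.sum_div, ← Finset.mul_sum, ← add_div, div_eq_one_iff_eq (by positivity)]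
  rw [DD, ← Complex.normSq_eq_norm_sq, ← Complex.normSq_eq_norm_sq]
  rw [← WW_re u y]
  simp only [Complex.normSq_apply, Complex.sub_re, Complex.one_re, Complex.mul_re, pow_two,
    Complex.ofReal_re, Complex.ofReal_im, Complex.sub_im, Complex.one_im, Complex.mul_im,
    Complex.add_re, Complex.add_im]
  ring

lemma DD_cont (u : Fin m → ℂ) (y : ℝ) : Continuous (DD u y) := by
  unfold DD
  fun_prop

lemma GG_cont (u : Fin m → ℂ) (y : ℝ) : Continuous (GG u y) := by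
  unfold GG
  exact continuous_const.div (DD_cont u y) (DD_ne u y)

lemma VV_cont (u : Fin m → ℂ) (y : ℝ) : Continuous (VV u y) := by
  unfold VV
  apply continuous_pi
  intro i
  exact continuous_const.div (DD_cont u y) (DD_ne u y)

lemma pt_cont : Continuous fun x : ℝ × ℂ × (Fin m → ℂ) => pt m x.1 x.2.1 x.2.2 := by
  apply continuous_pi
  intro i
  refine Fin.cases ?_ (fun i => ?_) i
  · simp only [pt, Fin.cons_zero]
    fun_prop
  · simp only [pt, Fin.cons_succ]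
    fun_prop

lemma pt_cont' {f : ℝ → ℂ} {g : ℝ → (Fin m → ℂ)} (hf : Continuous f) (hg : Continuous g) :
    Continuous fun δ : ℝ => pt m δ (f δ) (g δ) := by
  apply continuous_pi
  intro i
  refine Fin.cases ?_ (fun i => ?_) i
  · simp only [pt, Fin.cons_zero]
    fun_prop
  · simp only [pt, Fin.cons_succ]
    fun_prop

lemma GG_zero (u : Fin m → ℂ) (y : ℝ) : GG u y 0 = 2 * WW u y := by simp [GG, DD]
lemma VV_zero (u : Fin m → ℂ) (y : ℝ) : VV u y 0 = (2 : ℂ) • u := by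
  funext i; simp [VV, DD]

/-- equality off zero extends to zero -/
lemma eq_at_zero {f g : ℝ → ℝ} (hf : Continuous f) (hg : Continuous g)
    (h : ∀ δ, δ ≠ 0 → f δ = g δ) : f 0 = g 0 := by
  have := Continuous.ext_on (dense_compl_singleton (0 : ℝ)) hf hg (fun x hx => h x hx)
  rw [this]

lemma Expn.c0_eq {F : (Fin (m + 1) → ℂ) → ℂ} {c0 : ℂ} {l : (Fin m → ℂ) →ₗ[ℂ] ℂ} {a : ℂ}
    {Q : (Fin m → ℂ) → ℂ} {E : ℝ → ℂ → (Fin m → ℂ) → ℂ} (e : Expn F c0 l a Q E) (G : ℂ)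
    (v : Fin m → ℂ) : F (pt m 0 G v) = c0 := by
  rw [e.eq]; simp

lemma pt_zero (G : ℂ) (v : Fin m → ℂ) : pt m 0 G v = pt m 0 0 0 := by
  funext i
  refine Fin.cases ?_ (fun i => ?_) i
  · simp [pt]
  · simp [pt]

lemma norm_sub_sq' (x y : ℂ) : ‖x - y‖ ^ 2 = ‖x‖ ^ 2 - 2 * (y * (starRingEnd ℂ) x).re + ‖y‖ ^ 2 := by
  rw [← Complex.normSq_eq_norm_sq, ← Complex.normSq_eq_norm_sq, ← Complex.normSq_eq_norm_sq]
  simp only [Complex.normSq_apply, Complex.sub_re, Complex.sub_im, Complex.mul_re, Complex.conj_re,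
    Complex.conj_im]
  ring

lemma boundary_facts {M : ℕ} {F0 : (Fin (m + 1) → ℂ) → ℂ}
    {F : Fin M → (Fin (m + 1) → ℂ) → ℂ} {q : (Fin (m + 1) → ℂ) → ℂ}
    (hF0 : Differentiable ℂ F0) (hq : Differentiable ℂ q)
    (hsph : ∀ z, ∑ i, ‖z i‖ ^ 2 = 1 → ‖F0 z‖ ^ 2 + ∑ j, ‖F j z‖ ^ 2 = ‖q z‖ ^ 2)
    (hball : ∀ z ∈ Ball (m + 1), q z ≠ 0 ∧ ‖F0 z‖ ^ 2 + ∑ j, ‖F j z‖ ^ 2 < ‖q z‖ ^ 2)
    (hq1 : q (pt m 0 0 0) = 1)
    {l : (Fin m → ℂ) →ₗ[ℂ] ℂ} {a : ℂ}
    {Q : (Fin m → ℂ) → ℂ} {E : ℝ → ℂ → (Fin m → ℂ) → ℂ}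
    (eR : Expn (fun z => q z - F0 z) 0 l a Q E)
    {l' : Fin M → (Fin m → ℂ) →ₗ[ℂ] ℂ} {a' : Fin M → ℂ}
    {Q' : Fin M → (Fin m → ℂ) → ℂ} {E' : Fin M → ℝ → ℂ → (Fin m → ℂ) → ℂ}
    (eF : ∀ j, Expn (F j) 0 (l' j) (a' j) (Q' j) (E' j)) :
    l = 0 ∧ (∀ v, Q v = 0) ∧ ∃ α : ℝ, a = α ∧ 0 < α ∧
      ∀ v : Fin m → ℂ, α * ∑ i, ‖v i‖ ^ 2 = ∑ j, ‖l' j v‖ ^ 2 := by
  -- the basic identity
  have hid : ∀ z, ∑ i, ‖z i‖ ^ 2 = 1 →
      2 * ((q z - F0 z) * (starRingEnd ℂ) (q z)).re = ‖q z - F0 z‖ ^ 2 + ∑ j, ‖F j z‖ ^ 2 := by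
    intro z hz
    have h1 := hsph z hz
    have h2 := norm_sub_sq' (q z) (q z - F0 z)
    rw [sub_sub_cancel] at h2
    linarith
  have hl := lin_cont l
  have hQ := eR.hQc
  have hE := eR.hE
  -- continuity of the auxiliary functions
  have cQ : ∀ (u : Fin m → ℂ) (y : ℝ), Continuous fun δ : ℝ => Q (VV u y δ) := fun u y =>
    hQ.comp (VV_cont u y)
  have cE : ∀ (u : Fin m → ℂ) (y : ℝ), Continuous fun δ : ℝ => E δ (GG u y δ) (VV u y δ) :=
    fun u y => hE.comp (continuous_id.prodMk ((GG_cont u y).prodMk (VV_cont u y)))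
  have cE' : ∀ (u : Fin m → ℂ) (y : ℝ) (j : Fin M),
      Continuous fun δ : ℝ => E' j δ (GG u y δ) (VV u y δ) :=
    fun u y j => (eF j).hE.comp (continuous_id.prodMk ((GG_cont u y).prodMk (VV_cont u y)))
  have cQ' : ∀ (u : Fin m → ℂ) (y : ℝ) (j : Fin M), Continuous fun δ : ℝ => Q' j (VV u y δ) :=
    fun u y j => (eF j).hQc.comp (VV_cont u y)
  have cl' : ∀ (u : Fin m → ℂ) (y : ℝ) (j : Fin M), Continuous fun δ : ℝ => l' j (VV u y δ) :=
    fun u y j => (lin_cont (l' j)).comp (VV_cont u y)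
  have cl : ∀ (u : Fin m → ℂ) (y : ℝ), Continuous fun δ : ℝ => l (VV u y δ) :=
    fun u y => hl.comp (VV_cont u y)
  have cq : ∀ (u : Fin m → ℂ) (y : ℝ), Continuous fun δ : ℝ => q (pt m δ (GG u y δ) (VV u y δ)) :=
    fun u y => hq.continuous.comp (pt_cont' (GG_cont u y) (VV_cont u y))
  have cG := GG_cont (m := m)
  -- B_j
  set B : (Fin m → ℂ) → ℝ → Fin M → ℝ → ℂ := fun u y j δ =>
    l' j (VV u y δ) + δ * (a' j * GG u y δ + Q' j (VV u y δ) + δ * E' j δ (GG u y δ) (VV u y δ))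
    with hB
  have hBc : ∀ u y j, Continuous (B u y j) := by
    intro u y j
    have h1 := cl' u y j
    have h2 := cQ' u y j
    have h3 := cE' u y j
    have h4 := cG u y
    simp only [hB]
    exact h1.add (Complex.continuous_ofReal.mul
      (((continuous_const.mul h4).add h2).add (Complex.continuous_ofReal.mul h3)))
  have hBe : ∀ u y j δ, F j (pt m δ (GG u y δ) (VV u y δ)) = δ * B u y j δ := by
    intro u y j δ
    rw [(eF j).eq]
    simp only [hB]
    ring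
  have hB0 : ∀ u y j, B u y j 0 = l' j ((2 : ℂ) • u) := by
    intro u y j
    simp only [hB, VV_zero]
    simp
  -- first order
  have hlre : ∀ u : Fin m → ℂ, (l ((2 : ℂ) • u)).re = 0 := by
    intro u
    set A : ℝ → ℂ := fun δ => l (VV u 0 δ) + δ * (a * GG u 0 δ + Q (VV u 0 δ) +
      δ * E δ (GG u 0 δ) (VV u 0 δ)) with hA
    have hAc : Continuous A := by
      have h1 := cl u 0
      have h2 := cQ u 0
      have h3 := cE u 0
      have h4 := cG u 0
      simp only [hA]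
      exact h1.add (Complex.continuous_ofReal.mul
        (((continuous_const.mul h4).add h2).add (Complex.continuous_ofReal.mul h3)))
    have hAe : ∀ δ : ℝ, q (pt m δ (GG u 0 δ) (VV u 0 δ)) - F0 (pt m δ (GG u 0 δ) (VV u 0 δ)) =
        δ * A δ := by
      intro δ
      have := eR.eq δ (GG u 0 δ) (VV u 0 δ)
      rw [this]
      simp only [hA]
      ring
    have h := eq_at_zero (f := fun δ => 2 * (A δ * (starRingEnd ℂ)
        (q (pt m δ (GG u 0 δ) (VV u 0 δ)))).re)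
      (g := fun δ => δ * (‖A δ‖ ^ 2 + ∑ j, ‖B u 0 j δ‖ ^ 2)) ?_ ?_ ?_
    · simp only [zero_mul, pt_zero, hq1, map_one, mul_one] at h
      have h2 : A 0 = l ((2 : ℂ) • u) := by
        simp only [hA, VV_zero]
        simp
      rw [h2] at h
      linarith
    · have := cq u 0
      have h2 : Continuous fun δ : ℝ => (starRingEnd ℂ) (q (pt m δ (GG u 0 δ) (VV u 0 δ))) :=
        Complex.continuous_conj.comp this
      exact continuous_const.mul (Complex.continuous_re.comp (hAc.mul h2))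
    · have h3 : Continuous fun δ => ∑ j, ‖B u 0 j δ‖ ^ 2 :=
        continuous_finsetSum _ fun j _ => (hBc u 0 j).norm.pow 2
      exact continuous_id.mul ((hAc.norm.pow 2).add h3)
    · intro δ hδ
      have h1 := hid _ (sphere_param u 0 δ)
      rw [hAe] at h1
      simp only [hBe] at h1
      simp only [norm_mul, mul_pow, Complex.norm_real, Real.norm_eq_abs, sq_abs] at h1
      rw [← Finset.mul_sum] at h1
      rw [mul_assoc (δ : ℂ), Complex.re_ofReal_mul] at h1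
      have h2 : δ * (2 * (A δ * (starRingEnd ℂ) (q (pt m δ (GG u 0 δ) (VV u 0 δ)))).re) =
          δ * (δ * (‖A δ‖ ^ 2 + ∑ j, ‖B u 0 j δ‖ ^ 2)) := by linear_combination h1
      exact mul_left_cancel₀ hδ h2
  have hl0 : l = 0 := by
    have h1 : ∀ v, (l v).re = 0 := by
      intro v
      have := hlre ((1 / 2 : ℂ) • v)
      rwa [smul_smul, show (2 : ℂ) * (1 / 2) = 1 by norm_num, one_smul] at this
    ext1 i
    ext1
    simp only [LinearMap.comp_apply, LinearMap.zero_apply]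
    set w := (LinearMap.single ℂ (fun _ : Fin m => ℂ) i) 1
    apply Complex.ext
    · simpa using h1 w
    · have h2 := h1 (Complex.I • w)
      rw [map_smul, smul_eq_mul, Complex.I_mul_re] at h2
      simpa using h2
  -- second order
  have hsec : ∀ (u : Fin m → ℂ) (y : ℝ),
      2 * (a * (2 * WW u y) + Q ((2 : ℂ) • u)).re = ∑ j, ‖l' j ((2 : ℂ) • u)‖ ^ 2 := by
    intro u y
    set A : ℝ → ℂ := fun δ => a * GG u y δ + Q (VV u y δ) +
      δ * E δ (GG u y δ) (VV u y δ) with hA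
    have hAc : Continuous A := by
      have h2 := cQ u y
      have h3 := cE u y
      have h4 := cG u y
      simp only [hA]
      exact ((continuous_const.mul h4).add h2).add (Complex.continuous_ofReal.mul h3)
    have hAe : ∀ δ : ℝ, q (pt m δ (GG u y δ) (VV u y δ)) - F0 (pt m δ (GG u y δ) (VV u y δ)) =
        δ ^ 2 * A δ := by
      intro δ
      have := eR.eq δ (GG u y δ) (VV u y δ)
      rw [this, hl0]
      simp only [hA, LinearMap.zero_apply]
      ring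
    have h := eq_at_zero (f := fun δ => 2 * (A δ * (starRingEnd ℂ)
        (q (pt m δ (GG u y δ) (VV u y δ)))).re)
      (g := fun δ => δ ^ 2 * ‖A δ‖ ^ 2 + ∑ j, ‖B u y j δ‖ ^ 2) ?_ ?_ ?_
    · simp only [pt_zero, hq1, map_one, mul_one, hB0] at h
      have h2 : A 0 = a * (2 * WW u y) + Q ((2 : ℂ) • u) := by
        simp only [hA, VV_zero, GG_zero]
        simp
      rw [h2] at h
      rw [h]
      ring
    · have := cq u y
      have h2 : Continuous fun δ : ℝ => (starRingEnd ℂ) (q (pt m δ (GG u y δ) (VV u y δ))) :=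
        Complex.continuous_conj.comp this
      exact continuous_const.mul (Complex.continuous_re.comp (hAc.mul h2))
    · have h3 : Continuous fun δ => ∑ j, ‖B u y j δ‖ ^ 2 :=
        continuous_finsetSum _ fun j _ => (hBc u y j).norm.pow 2
      exact ((continuous_id.pow 2).mul (hAc.norm.pow 2)).add h3
    · intro δ hδ
      have h1 := hid _ (sphere_param u y δ)
      rw [hAe] at h1
      simp only [hBe] at h1
      simp only [norm_mul, norm_pow, mul_pow, Complex.norm_real, Real.norm_eq_abs, sq_abs] at h1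
      rw [← Finset.mul_sum, ← Complex.ofReal_pow] at h1
      rw [mul_assoc, Complex.re_ofReal_mul] at h1
      have h2 : δ ^ 2 * (2 * (A δ * (starRingEnd ℂ) (q (pt m δ (GG u y δ) (VV u y δ)))).re) =
          δ ^ 2 * (δ ^ 2 * ‖A δ‖ ^ 2 + ∑ j, ‖B u y j δ‖ ^ 2) := by linear_combination h1
      exact mul_left_cancel₀ (pow_ne_zero 2 hδ) h2
  have hQ0 : Q 0 = 0 := by
    have := eR.hQ 0 0
    simpa using this
  have him : a.im = 0 := by
    have h1 := hsec 0 1
    simp only [smul_zero, hQ0, map_zero, norm_zero, add_zero] at h1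
    have h2 : WW (0 : Fin m → ℂ) 1 = Complex.I := by simp [WW]
    rw [h2] at h1
    simp at h1
    exact h1
  have hmain : ∀ u : Fin m → ℂ, 4 * a.re * ∑ i, ‖u i‖ ^ 2 + 2 * (Q ((2 : ℂ) • u)).re =
      ∑ j, ‖l' j ((2 : ℂ) • u)‖ ^ 2 := by
    intro u
    rw [← hsec u 0, Complex.add_re, Complex.mul_re, Complex.mul_re, him, WW_re]
    simp
    ring
  have hQre : ∀ v, (Q v).re = 0 := by
    intro v
    have e2 : (2 : ℂ) • ((1 / 2 : ℂ) • v) = v := by
      rw [smul_smul, show (2 : ℂ) * (1 / 2) = 1 by norm_num, one_smul]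
    have h1 := hmain ((1 / 2 : ℂ) • v)
    have h2 := hmain (Complex.I • ((1 / 2 : ℂ) • v))
    rw [smul_comm (2 : ℂ) Complex.I, e2] at h2
    rw [e2] at h1
    simp only [map_smul, smul_eq_mul, Pi.smul_apply, norm_mul, Complex.norm_I, one_mul] at h1 h2
    rw [eR.hQ] at h2
    rw [Complex.I_sq] at h2
    simp only [neg_mul, one_mul, Complex.neg_re] at h2
    linarith
  have hQv : ∀ v, Q v = 0 := by
    intro v
    have h1 := hQre ((1 + Complex.I) • v)
    rw [eR.hQ] at h1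
    have h2 : (1 + Complex.I) ^ 2 = 2 * Complex.I := by
      rw [add_sq, Complex.I_sq]; ring
    rw [h2] at h1
    apply Complex.ext
    · simpa using hQre v
    · simp at h1
      simpa using h1
  refine ⟨hl0, hQv, a.re, ?_, ?_, ?_⟩
  · apply Complex.ext <;> simp [him]
  · -- positivity through Schwarz-Pick
    set hh : ℂ → ℂ := fun x => F0 (Fin.cons x 0) / q (Fin.cons x 0) with hhh
    have hcons : Differentiable ℂ (fun x : ℂ => (Fin.cons x (0 : Fin m → ℂ) : Fin (m + 1) → ℂ)) := by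
      rw [differentiable_pi]
      intro i
      refine Fin.cases ?_ (fun i => ?_) i
      · simp only [Fin.cons_zero]
        fun_prop
      · simp only [Fin.cons_succ]
        fun_prop
    have hmem : ∀ x : ℂ, ‖x‖ < 1 → (Fin.cons x (0 : Fin m → ℂ) : Fin (m + 1) → ℂ) ∈ Ball (m + 1) := by
      intro x hx
      show ∑ i, ‖(Fin.cons x (0 : Fin m → ℂ) : Fin (m + 1) → ℂ) i‖ ^ 2 < 1
      rw [Fin.sum_univ_succ]
      simp only [Fin.cons_zero, Fin.cons_succ, Pi.zero_apply, norm_zero]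
      simp
      nlinarith [norm_nonneg x]
    have hdd : DifferentiableOn ℂ hh (Metric.ball 0 1) := by
      apply diffOn_div
      · exact (hF0.comp hcons).differentiableOn
      · exact (hq.comp hcons).differentiableOn
      · intro x hx
        exact (hball _ (hmem x (by simpa using hx))).1
    have hlt : ∀ z, ‖z‖ < 1 → ‖hh z‖ < 1 := by
      intro z hz
      obtain ⟨h1, h2⟩ := hball _ (hmem z hz)
      have h3 : 0 ≤ ∑ j, ‖F j (Fin.cons z 0)‖ ^ 2 := by positivity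
      simp only [hhh, norm_div]
      rw [div_lt_one (norm_pos_iff.2 h1)]
      exact lt_of_pow_lt_pow_left₀ 2 (norm_nonneg _) (by linarith)
    obtain ⟨c, hc, hc2⟩ := schwarz_pick_lower hdd hlt
    -- inequality for δ in (0,1]
    have key : ∀ δ : ℝ, 0 < δ → δ < 1 →
        c * ‖q (pt m δ 1 0)‖ ^ 2 ≤ 2 * ((a + δ * E δ 1 0) * (starRingEnd ℂ) (q (pt m δ 1 0))).re := by
      intro δ h0 h1
      have ept : pt m δ 1 0 = (Fin.cons ((1 - δ ^ 2 : ℝ) : ℂ) (0 : Fin m → ℂ)) := by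
        funext i
        refine Fin.cases ?_ (fun i => ?_) i
        · simp [pt]
        · simp [pt]
      have hx0 : 0 < 1 - δ ^ 2 := by nlinarith
      have hnx : ‖((1 - δ ^ 2 : ℝ) : ℂ)‖ = 1 - δ ^ 2 := by
        rw [Complex.norm_real, Real.norm_eq_abs, abs_of_pos hx0]
      have hx1 : ‖((1 - δ ^ 2 : ℝ) : ℂ)‖ < 1 := by
        rw [hnx]; nlinarith
      obtain ⟨hqne, hlt2⟩ := hball _ (hmem _ hx1)
      rw [← ept] at hqne hlt2
      have h2 := hc2 _ hx1
      rw [hnx] at h2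
      simp only [hhh] at h2
      rw [← ept, norm_div, div_pow] at h2
      have hqp : 0 < ‖q (pt m δ 1 0)‖ ^ 2 := by
        have := norm_pos_iff.2 hqne
        positivity
      have h3 := norm_sub_sq' (q (pt m δ 1 0)) (q (pt m δ 1 0) - F0 (pt m δ 1 0))
      rw [sub_sub_cancel] at h3
      have h4 := eR.eq δ 1 0
      have h5 : q (pt m δ 1 0) - F0 (pt m δ 1 0) = ((δ ^ 2 : ℝ) : ℂ) * (a + δ * E δ 1 0) := by
        have h6 : q (pt m δ 1 0) - F0 (pt m δ 1 0) = _ := h4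
        rw [h6, hl0, hQ0]
        push_cast
        simp
        ring
      rw [h5, mul_assoc, Complex.re_ofReal_mul] at h3
      have h7 : c * (1 - (1 - δ ^ 2) ^ 2) * ‖q (pt m δ 1 0)‖ ^ 2 ≤
          ‖q (pt m δ 1 0)‖ ^ 2 - ‖F0 (pt m δ 1 0)‖ ^ 2 := by
        have := mul_le_mul_of_nonneg_right h2 hqp.le
        rw [sub_mul, one_mul, div_mul_cancel₀ _ hqp.ne'] at this
        exact this
      have h8 : δ ^ 2 * (c * ‖q (pt m δ 1 0)‖ ^ 2) ≤ δ ^ 2 *
          (2 * ((a + δ * E δ 1 0) * (starRingEnd ℂ) (q (pt m δ 1 0))).re) := by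
        have h9 : 0 ≤ ‖((δ ^ 2 : ℝ) : ℂ) * (a + δ * E δ 1 0)‖ ^ 2 := by positivity
        have h10 : δ ^ 2 * (c * ‖q (pt m δ 1 0)‖ ^ 2) ≤
            c * (1 - (1 - δ ^ 2) ^ 2) * ‖q (pt m δ 1 0)‖ ^ 2 := by
          have : δ ^ 2 ≤ 1 - (1 - δ ^ 2) ^ 2 := by nlinarith [sq_nonneg δ]
          calc δ ^ 2 * (c * ‖q (pt m δ 1 0)‖ ^ 2) = c * δ ^ 2 * ‖q (pt m δ 1 0)‖ ^ 2 := by ring
            _ ≤ _ := by gcongr
        linarith
      exact le_of_mul_le_mul_left h8 (by positivity)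
    -- pass to the limit
    have hcE : Continuous fun δ : ℝ => E δ 1 0 := by
      have h9 : Continuous fun δ : ℝ => ((δ, 1, 0) : ℝ × ℂ × (Fin m → ℂ)) := by fun_prop
      exact hE.comp h9
    have hcq : Continuous fun δ : ℝ => q (pt m δ 1 0) :=
      hq.continuous.comp (pt_cont' continuous_const continuous_const)
    have c1 : Continuous fun δ : ℝ => c * ‖q (pt m δ 1 0)‖ ^ 2 :=
      continuous_const.mul (hcq.norm.pow 2)
    have c2 : Continuous fun δ : ℝ => 2 * ((a + δ * E δ 1 0) *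
        (starRingEnd ℂ) (q (pt m δ 1 0))).re := by
      have h2 : Continuous fun δ : ℝ => (starRingEnd ℂ) (q (pt m δ 1 0)) :=
        Complex.continuous_conj.comp hcq
      have h3 : Continuous fun δ : ℝ => (a + δ * E δ 1 0) := by fun_prop
      exact continuous_const.mul (Complex.continuous_re.comp (h3.mul h2))
    have hlim : c * ‖q (pt m 0 1 0)‖ ^ 2 ≤ 2 * ((a + ((0 : ℝ) : ℂ) * E 0 1 0) *
        (starRingEnd ℂ) (q (pt m 0 1 0))).re := by
      have t1 : Tendsto (fun δ : ℝ => c * ‖q (pt m δ 1 0)‖ ^ 2) (𝓝[>] 0)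
          (𝓝 (c * ‖q (pt m 0 1 0)‖ ^ 2)) := (c1.tendsto 0).mono_left nhdsWithin_le_nhds
      have t2 : Tendsto (fun δ : ℝ => 2 * ((a + δ * E δ 1 0) *
        (starRingEnd ℂ) (q (pt m δ 1 0))).re) (𝓝[>] 0)
          (𝓝 (2 * ((a + ((0 : ℝ) : ℂ) * E 0 1 0) *
        (starRingEnd ℂ) (q (pt m 0 1 0))).re)) := (c2.tendsto 0).mono_left nhdsWithin_le_nhds
      refine le_of_tendsto_of_tendsto t1 t2 ?_
      filter_upwards [Ioo_mem_nhdsGT (zero_lt_one' ℝ)] with δ hδ
      exact key δ hδ.1 hδ.2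
    rw [pt_zero, hq1] at hlim
    simp at hlim
    linarith
  · intro v
    have e2 : (2 : ℂ) • ((1 / 2 : ℂ) • v) = v := by
      rw [smul_smul, show (2 : ℂ) * (1 / 2) = 1 by norm_num, one_smul]
    have h1 := hmain ((1 / 2 : ℂ) • v)
    rw [e2, hQre] at h1
    rw [← h1]
    simp only [Pi.smul_apply, smul_eq_mul, norm_mul, mul_pow]
    rw [← Finset.mul_sum]
    norm_num
    ring

end Pool.TH855.BallMap
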