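import Pool.Agent.TH855.Ball.Fam

set_option autoImplicit false

namespace Pool.TH855.BallMap

open Set Filter Topology

/-- Euclidean space abbreviation -/
abbrev EE (n : ℕ) := EuclideanSpace ℂ (Fin n)

/-- transfer of a continuous linear map of Euclidean spaces to plain function spaces -/
noncomputable def toL {n N : ℕ} (U : EE n →L[ℂ] EE N) : (Fin n → ℂ) →ₗ[ℂ] (Fin N → ℂ) :=
  ((WithLp.linearEquiv 2 ℂ (Fin N → ℂ)).toLinearMap.comp U.toLinearMap).comp
    (WithLp.linearEquiv 2 ℂ (Fin n → ℂ)).symm.toLinearMap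

lemma toL_apply {n N : ℕ} (U : EE n →L[ℂ] EE N) (z : Fin n → ℂ) (j : Fin N) :
    toL U z j = U (WithLp.toLp 2 z) j := rfl

lemma toL_iso {n N : ℕ} (U : EE n →L[ℂ] EE N) (h : ∀ x, ‖U x‖ = ‖x‖) : IsIso n N (toL U) := by
  intro z
  have h1 := h (WithLp.toLp 2 z)
  have h2 : ‖U (WithLp.toLp 2 z)‖ ^ 2 = ‖(WithLp.toLp 2 z : EE n)‖ ^ 2 := by rw [h1]
  rw [EuclideanSpace.norm_sq_eq, EuclideanSpace.norm_sq_eq] at h2
  exact h2

/-- the reverse transfer -/
noncomputable def ofIso {n N : ℕ} (L : (Fin n → ℂ) →ₗ[ℂ] (Fin N → ℂ)) (h : IsIso n N L) :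
    EE n →ₗᵢ[ℂ] EE N where
  toLinearMap := ((WithLp.linearEquiv 2 ℂ (Fin N → ℂ)).symm.toLinearMap.comp L).comp
    (WithLp.linearEquiv 2 ℂ (Fin n → ℂ)).toLinearMap
  norm_map' := by
    intro x
    have h1 := h (WithLp.ofLp x)
    have h2 : ‖(WithLp.toLp 2 (L (WithLp.ofLp x)) : EE N)‖ ^ 2 = ‖x‖ ^ 2 := by
      rw [EuclideanSpace.norm_sq_eq, EuclideanSpace.norm_sq_eq]
      exact h1
    have h3 := abs_eq_abs.2 (sq_eq_sq_iff_eq_or_eq_neg.1 h2)
    rw [abs_of_nonneg (norm_nonneg _), abs_of_nonneg (norm_nonneg _)] at h3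
    exact h3

lemma ofIso_apply {n N : ℕ} (L : (Fin n → ℂ) →ₗ[ℂ] (Fin N → ℂ)) (h : IsIso n N L) (z : Fin n → ℂ) :
    ofIso L h (WithLp.toLp 2 z) = WithLp.toLp 2 (L z) := rfl

/-- any unitary is joined to 1 -/
lemma joined_one {N : ℕ} (u : unitary (EE N →L[ℂ] EE N)) : Joined u 1 := by
  rcases Nat.eq_zero_or_pos N with hN | hN
  · subst hN
    have : u = 1 := by
      apply Subtype.ext
      ext x i
      exact i.elim0
    rw [this]
  have hne : Nonempty (Fin N) := ⟨⟨0, hN⟩⟩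
  have hnt : Nontrivial (EE N) := inferInstance
  -- a good scalar
  have hinf : (Metric.sphere (0 : ℂ) 1).Infinite := by
    apply (isPreconnected_sphere (by rw [Complex.rank_real_complex]; exact_mod_cast one_lt_two)
      (0 : ℂ) 1).infinite_of_nontrivial
    refine ⟨1, by simp, -1, by simp, ?_⟩
    norm_num
  have hfin : (spectrum ℂ (u : EE N →L[ℂ] EE N)).Finite := by
    set a : EE N →L[ℂ] EE N := (u : EE N →L[ℂ] EE N)
    have hint : IsIntegral ℂ a := Algebra.IsIntegral.isIntegral a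
    have h0 : minpoly ℂ a ≠ 0 := minpoly.ne_zero hint
    apply ((minpoly ℂ a).rootSet_finite ℂ).subset
    intro z hz
    rw [Polynomial.mem_rootSet]
    refine ⟨h0, ?_⟩
    have h1 := spectrum.subset_polynomial_aeval a (minpoly ℂ a) ⟨z, hz, rfl⟩
    rw [minpoly.aeval, spectrum.zero_eq] at h1
    simpa using h1
  have hfin2 : ((fun z : ℂ => -z⁻¹) '' (spectrum ℂ (u : EE N →L[ℂ] EE N)) ∪ {-1}).Finite :=
    (hfin.image _).union (finite_singleton _)
  obtain ⟨c, hc1, hc2⟩ := (hinf.sdiff hfin2).nonempty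
  have hcn : ‖c‖ = 1 := by simpa using hc1
  have hc0 : c ≠ 0 := by
    intro h; rw [h, norm_zero] at hcn; exact zero_ne_one hcn
  have hcm : c ≠ -1 := fun h => hc2 (Or.inr h)
  have hcu : c • (u : EE N →L[ℂ] EE N) ∈ unitary (EE N →L[ℂ] EE N) := by
    have hu := u.2
    rw [Unitary.mem_iff] at hu ⊢
    rw [star_smul]
    simp only [smul_mul_smul_comm]
    rw [hu.1, hu.2]
    have h1 : star c * c = 1 := by
      rw [RCLike.star_def, ← Complex.normSq_eq_conj_mul_self, Complex.normSq_eq_norm_sq, hcn]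
      norm_num
    rw [mul_comm c (star c), h1, one_smul]
    exact ⟨rfl, rfl⟩
  set w : unitary (EE N →L[ℂ] EE N) := ⟨c • (u : EE N →L[ℂ] EE N), hcu⟩ with hw
  have hj1 : Joined u w := by
    apply Unitary.joined
    have e : (w : EE N →L[ℂ] EE N) - (u : EE N →L[ℂ] EE N) = (c - 1) • (u : EE N →L[ℂ] EE N) := by
      simp only [hw]
      ext x i
      simp
      ring
    rw [e, norm_smul]
    have hun : ‖(u : EE N →L[ℂ] EE N)‖ = 1 := CStarRing.norm_coe_unitary u
    rw [hun, mul_one]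
    by_contra hcon
    push Not at hcon
    apply hcm
    -- ‖c - 1‖ ≥ 2 and ‖c‖ = 1 imply c = -1
    have h1 : ‖c - 1‖ ^ 2 = 2 - 2 * c.re := by
      have h2 : ‖c‖ ^ 2 = 1 := by rw [hcn]; norm_num
      rw [← Complex.normSq_eq_norm_sq] at h2 ⊢
      rw [Complex.normSq_apply] at h2 ⊢
      simp only [Complex.sub_re, Complex.one_re, Complex.sub_im, Complex.one_im]
      linear_combination h2
    have h3 : 4 ≤ ‖c - 1‖ ^ 2 := by nlinarith
    have h4 : c.re ≤ -1 := by linarith
    have h2 : ‖c‖ ^ 2 = 1 := by rw [hcn]; norm_num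
    rw [← Complex.normSq_eq_norm_sq, Complex.normSq_apply] at h2
    have h5 : c.re = -1 := by nlinarith [sq_nonneg c.im]
    have h6 : c.im = 0 := by
      rw [h5] at h2
      nlinarith
    apply Complex.ext <;> simp [h5, h6]
  have hj2 : Joined w 1 := by
    apply Joined.symm
    apply Unitary.joined
    have hgoal : ‖(w : EE N →L[ℂ] EE N) - 1‖ < 2 := by
      rw [Unitary.norm_sub_one_lt_two_iff w.2]
      intro hspec
      apply hc2
      left
      refine ⟨-c⁻¹, ?_, ?_⟩
      · have h1 : (-1 : ℂ) ∈ spectrum ℂ (c • (u : EE N →L[ℂ] EE N)) := hspec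
        have h2 := (spectrum.unit_smul_eq_smul (u : EE N →L[ℂ] EE N) (Units.mk0 c hc0)).symm ▸
          (show (-1 : ℂ) ∈ spectrum ℂ ((Units.mk0 c hc0) • (u : EE N →L[ℂ] EE N)) from h1)
        rw [Set.mem_smul_set] at h2
        obtain ⟨y, hy, hy2⟩ := h2
        have h3 : c * y = -1 := hy2
        have h4 : y = -c⁻¹ := by
          field_simp
          linear_combination h3
        rw [← h4]; exact hy
      · simp only
        rw [inv_neg, inv_inv, neg_neg]
    exact hgoal
  exact hj1.trans hj2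

/-- any two linear isometries are homotopic -/
lemma iso_homotopic {n N : ℕ} {L1 L2 : (Fin n → ℂ) →ₗ[ℂ] (Fin N → ℂ)}
    (h1 : IsIso n N L1) (h2 : IsIso n N L2) {e : ℕ} (he : 1 ≤ e) :
    Homotopic n N (RatDeg n N e) L1 L2 := by
  apply Homotopic.symm
  set U1 := ofIso L1 h1 with hU1
  set U2 := ofIso L2 h2 with hU2
  set K : (LinearMap.range U1.toLinearMap) →ₗᵢ[ℂ] EE N :=
    U2.comp U1.equivRange.symm.toLinearIsometry with hK
  set W := K.extend with hW
  have hWU : ∀ x, W (U1 x) = U2 x := by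
    intro x
    have e1 : U1 x = ((U1.equivRange x : LinearMap.range U1.toLinearMap) : EE N) := rfl
    rw [e1, hW, LinearIsometry.extend_apply, hK]
    simp
  set u : unitary (EE N →L[ℂ] EE N) :=
    Unitary.linearIsometryEquiv.symm (W.toLinearIsometryEquiv rfl) with hu
  have huW : ∀ x, (u : EE N →L[ℂ] EE N) x = W x := by
    intro x
    rw [hu, Unitary.coe_symm_linearIsometryEquiv_apply]
    simp
  obtain ⟨γ⟩ := joined_one u
  have hγc : Continuous fun t : ℝ => ((γ.extend t : unitary (EE N →L[ℂ] EE N)) :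
      EE N →L[ℂ] EE N) := continuous_subtype_val.comp γ.continuous_extend
  refine ⟨fun t z => toL ((γ.extend t : unitary (EE N →L[ℂ] EE N)) : EE N →L[ℂ] EE N) (L1 z),
    ?_, ?_, ?_⟩
  · apply Continuous.continuousOn
    apply continuous_pi
    intro j
    simp only [toL_apply]
    have hL1 : Continuous L1 := LinearMap.continuous_on_pi L1
    have hz : Continuous fun x : ℝ × (Fin n → ℂ) => (WithLp.toLp 2 (L1 x.2) : EE N) :=
      (PiLp.continuous_toLp 2 _).comp (hL1.comp continuous_snd)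
    have ha : Continuous fun x : ℝ × (Fin n → ℂ) =>
        (((γ.extend x.1 : unitary (EE N →L[ℂ] EE N)) : EE N →L[ℂ] EE N)
          (WithLp.toLp 2 (L1 x.2) : EE N)) :=
      (hγc.comp continuous_fst).clm_apply hz
    exact (PiLp.continuous_apply 2 _ j).comp ha
  · intro t _
    set v := ((γ.extend t : unitary (EE N →L[ℂ] EE N)) : EE N →L[ℂ] EE N) with hv
    have hvn : ∀ x, ‖v x‖ = ‖x‖ := fun x => Unitary.norm_map (γ.extend t) x
    have hiso : IsIso n N ((toL v).comp L1) := by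
      intro z
      rw [LinearMap.comp_apply, toL_iso v hvn, h1]
    exact ⟨IsIso.diff ((toL v).comp L1) _, hiso.proper, RatDeg.linear he ((toL v).comp L1)⟩
  · intro z _
    constructor
    · funext j
      beta_reduce
      rw [toL_apply, γ.extend_zero, ← ofIso_apply L1 h1, ← hU1, huW, hWU]
      rfl
    · funext j
      beta_reduce
      rw [toL_apply, γ.extend_one]
      rfl

lemma exists_rot {M : ℕ} (c : Fin (M + 1) → ℂ) (hc : ∑ j, ‖c j‖ ^ 2 = 1) :
    ∃ V V' : (Fin (M + 1) → ℂ) →ₗ[ℂ] (Fin (M + 1) → ℂ), IsIso _ _ V ∧ IsIso _ _ V' ∧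
      (∀ z, V' (V z) = z) ∧ V c = Pi.single 0 1 := by
  classical
  set cc : EE (M + 1) := WithLp.toLp 2 c with hcc
  have hn : ‖cc‖ = 1 := by
    have h2 : ‖cc‖ ^ 2 = 1 := by
      rw [EuclideanSpace.norm_sq_eq]; exact hc
    have := norm_nonneg cc
    nlinarith
  have horth : Orthonormal ℂ (({0} : Set (Fin (M + 1))).domRestrict (fun _ => cc)) := by
    constructor
    · intro i
      exact hn
    · intro i j hij
      exact absurd (Subsingleton.elim i j) hij
  obtain ⟨b, hb⟩ := horth.exists_orthonormalBasis_extension_of_card_eq (by simp)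
  have hb0 : b 0 = cc := hb 0 rfl
  refine ⟨toL (b.repr : EE (M + 1) →L[ℂ] EE (M + 1)), toL (b.repr.symm : EE (M + 1) →L[ℂ] EE (M + 1)),
    toL_iso _ (fun x => b.repr.norm_map x), toL_iso _ (fun x => b.repr.symm.norm_map x), ?_, ?_⟩
  · intro z
    funext j
    rw [toL_apply]
    have e1 : (WithLp.toLp 2 (toL (b.repr : EE (M + 1) →L[ℂ] EE (M + 1)) z) : EE (M + 1)) =
        b.repr (WithLp.toLp 2 z) := rfl
    rw [e1]
    have e2 : ((b.repr.symm : EE (M + 1) →L[ℂ] EE (M + 1))) (b.repr (WithLp.toLp 2 z)) =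
        WithLp.toLp 2 z := b.repr.symm_apply_apply _
    rw [e2]
  · funext j
    rw [toL_apply]
    have e1 : ((b.repr : EE (M + 1) →L[ℂ] EE (M + 1))) (WithLp.toLp 2 c) = b.repr (b 0) := by
      rw [hb0]; rfl
    rw [e1, b.repr_self]
    simp [Pi.single_apply]

end Pool.TH855.BallMap
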