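import Pool.Agent.TH855.Ball.Rep

set_option autoImplicit false

namespace Pool.TH855.BallMap

open Set Filter Topology

variable {m : ℕ}

/-- the point `(1 - δ²G, δ v)` -/
noncomputable def pt (m : ℕ) (δ : ℝ) (G : ℂ) (v : Fin m → ℂ) : Fin (m + 1) → ℂ :=
  Fin.cons (1 - (δ : ℂ) ^ 2 * G) (fun i => (δ : ℂ) * v i)

structure Expn (F : (Fin (m + 1) → ℂ) → ℂ) (c0 : ℂ) (l : (Fin m → ℂ) →ₗ[ℂ] ℂ) (a : ℂ)
    (Q : (Fin m → ℂ) → ℂ) (E : ℝ → ℂ → (Fin m → ℂ) → ℂ) : Prop where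
  eq : ∀ (δ : ℝ) (G : ℂ) (v : Fin m → ℂ),
    F (pt m δ G v) = c0 + δ * l v + (δ : ℂ) ^ 2 * (a * G + Q v) + (δ : ℂ) ^ 3 * E δ G v
  hQ : ∀ (c : ℂ) (v : Fin m → ℂ), Q (c • v) = c ^ 2 * Q v
  hQc : Continuous Q
  hE : Continuous fun x : ℝ × ℂ × (Fin m → ℂ) => E x.1 x.2.1 x.2.2

/-- `F` is entire and has a second-order Heisenberg expansion at `e_1`. -/
def HasExp (F : (Fin (m + 1) → ℂ) → ℂ) : Prop :=
  Differentiable ℂ F ∧ ∃ c0 l a Q E, Expn (m := m) F c0 l a Q E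

lemma lin_cont (l : (Fin m → ℂ) →ₗ[ℂ] ℂ) : Continuous l := LinearMap.continuous_on_pi l

lemma HasExp.const (c : ℂ) : HasExp (m := m) (fun _ => c) :=
  ⟨by fun_prop, c, 0, 0, fun _ => 0, fun _ _ _ => 0, ⟨by simp, by simp, by fun_prop, by fun_prop⟩⟩

lemma HasExp.add {F F' : (Fin (m + 1) → ℂ) → ℂ} (h : HasExp F) (h' : HasExp F') :
    HasExp (fun z => F z + F' z) := by
  obtain ⟨d, c0, l, a, Q, E, e⟩ := h
  obtain ⟨d', c0', l', a', Q', E', e'⟩ := h'
  refine ⟨by fun_prop, c0 + c0', l + l', a + a', fun v => Q v + Q' v,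
    fun δ G v => E δ G v + E' δ G v, ⟨fun δ G v => ?_, fun c v => ?_, ?_, ?_⟩⟩
  · rw [e.eq, e'.eq, LinearMap.add_apply]; ring
  · rw [e.hQ, e'.hQ]; ring
  · exact e.hQc.add e'.hQc
  · exact e.hE.add e'.hE

lemma HasExp.const_mul {F : (Fin (m + 1) → ℂ) → ℂ} (h : HasExp F) (k : ℂ) :
    HasExp (fun z => k * F z) := by
  obtain ⟨d, c0, l, a, Q, E, e⟩ := h
  refine ⟨by fun_prop, k * c0, k • l, k * a, fun v => k * Q v,
    fun δ G v => k * E δ G v, ⟨fun δ G v => ?_, fun c v => ?_, ?_, ?_⟩⟩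
  · rw [e.eq, LinearMap.smul_apply, smul_eq_mul]; ring
  · rw [e.hQ]; ring
  · exact e.hQc.const_mul k
  · exact e.hE.const_mul k

lemma HasExp.mul_zero {F : (Fin (m + 1) → ℂ) → ℂ} (h : HasExp F) :
    HasExp (fun z => F z * z 0) := by
  obtain ⟨d, c0, l, a, Q, E, e⟩ := h
  refine ⟨by fun_prop, c0, l, a - c0, Q,
    fun δ G v => E δ G v - G * l v - δ * G * (a * G + Q v) - (δ : ℂ) ^ 2 * G * E δ G v,
    ⟨fun δ G v => ?_, e.hQ, e.hQc, ?_⟩⟩
  · rw [e.eq]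
    simp only [pt, Fin.cons_zero]
    ring
  · have h1 := e.hE
    have h2 := e.hQc
    have h3 := lin_cont l
    have h4 : Continuous fun x : ℝ × ℂ × (Fin m → ℂ) => Q x.2.2 := h2.comp (by fun_prop)
    have h5 : Continuous fun x : ℝ × ℂ × (Fin m → ℂ) => l x.2.2 := h3.comp (by fun_prop)
    fun_prop

lemma HasExp.mul_succ {F : (Fin (m + 1) → ℂ) → ℂ} (h : HasExp F) (i : Fin m) :
    HasExp (fun z => F z * z i.succ) := by
  obtain ⟨d, c0, l, a, Q, E, e⟩ := h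
  refine ⟨by fun_prop, 0, c0 • LinearMap.proj i, 0, fun v => l v * v i,
    fun δ G v => v i * (a * G + Q v + δ * E δ G v),
    ⟨fun δ G v => ?_, fun c v => ?_, ?_, ?_⟩⟩
  · rw [e.eq]
    simp only [pt, Fin.cons_succ, LinearMap.smul_apply, LinearMap.proj_apply, smul_eq_mul]
    ring
  · simp only [map_smul, smul_eq_mul, Pi.smul_apply]
    ring
  · have h3 := lin_cont l
    fun_prop
  · have h1 := e.hE
    have h2 := e.hQc
    have h4 : Continuous fun x : ℝ × ℂ × (Fin m → ℂ) => Q x.2.2 := h2.comp (by fun_prop)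
    fun_prop

lemma HasExp.sum {ι : Type*} (s : Finset ι) {F : ι → (Fin (m + 1) → ℂ) → ℂ}
    (h : ∀ i, HasExp (F i)) : HasExp (fun z => ∑ i ∈ s, F i z) := by
  classical
  induction s using Finset.induction_on with
  | empty => simpa using HasExp.const 0
  | insert a s ha ih =>
    simp only [Finset.sum_insert ha]
    exact (h a).add ih

/-- rotation in the first coordinate -/
def rot (m : ℕ) (lam : ℂ) (z : Fin (m + 1) → ℂ) : Fin (m + 1) → ℂ :=
  Fin.cons (lam * z 0) (fun i : Fin m => z i.succ)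

lemma HasExp.poly (lam : ℂ) (p : MvPolynomial (Fin (m + 1)) ℂ) :
    HasExp (fun z => MvPolynomial.eval (rot m lam z) p) := by
  induction p using MvPolynomial.induction_on with
  | C a => simpa using HasExp.const a
  | add p q hp hq => simpa using hp.add hq
  | mul_X p i hp =>
    refine Fin.cases ?_ (fun i => ?_) i
    · have := hp.mul_zero.const_mul lam
      convert this using 2 with z
      simp only [map_mul, MvPolynomial.eval_X, rot, Fin.cons_zero]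
      ring
    · have := hp.mul_succ i
      convert this using 2 with z
      simp only [map_mul, MvPolynomial.eval_X, rot, Fin.cons_succ]

lemma HasExp.sub {F F' : (Fin (m + 1) → ℂ) → ℂ} (h : HasExp F) (h' : HasExp F') :
    HasExp (fun z => F z - F' z) := by
  have := h.add (h'.const_mul (-1))
  convert this using 2 with z
  ring

/-- lower bound of Schwarz-Pick type -/
lemma schwarz_pick_lower {h : ℂ → ℂ} (hd : DifferentiableOn ℂ h (Metric.ball 0 1))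
    (hm : ∀ z, ‖z‖ < 1 → ‖h z‖ < 1) :
    ∃ c : ℝ, 0 < c ∧ ∀ z, ‖z‖ < 1 → c * (1 - ‖z‖ ^ 2) ≤ 1 - ‖h z‖ ^ 2 := by
  set a := h 0 with ha
  have ha1 : ‖a‖ < 1 := hm 0 (by simp)
  have hne : ∀ z, ‖z‖ < 1 → 1 - ‖a‖ ≤ ‖1 - (starRingEnd ℂ) a * h z‖ := by
    intro z hz
    have h1 := norm_sub_norm_le (1 : ℂ) ((starRingEnd ℂ) a * h z)
    rw [norm_one, norm_mul, RCLike.norm_conj] at h1
    have := hm z hz
    have h2 : ‖a‖ * ‖h z‖ ≤ ‖a‖ := by nlinarith [norm_nonneg a]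
    linarith
  have hne' : ∀ z, ‖z‖ < 1 → 1 - (starRingEnd ℂ) a * h z ≠ 0 := by
    intro z hz h0
    have := hne z hz
    rw [h0, norm_zero] at this
    linarith
  set g : ℂ → ℂ := fun z => (h z - a) / (1 - (starRingEnd ℂ) a * h z) with hg
  have hid : ∀ z, ‖z‖ < 1 → (1 - ‖g z‖ ^ 2) * ‖1 - (starRingEnd ℂ) a * h z‖ ^ 2 =
      (1 - ‖a‖ ^ 2) * (1 - ‖h z‖ ^ 2) := by
    intro z hz
    have h1 : ‖1 - (starRingEnd ℂ) a * h z‖ ≠ 0 := norm_ne_zero_iff.2 (hne' z hz)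
    simp only [hg, norm_div, div_pow]
    have e1 : ‖1 - (starRingEnd ℂ) a * h z‖ ^ 2 - ‖h z - a‖ ^ 2 =
        (1 - ‖a‖ ^ 2) * (1 - ‖h z‖ ^ 2) := by
      rw [← Complex.normSq_eq_norm_sq, ← Complex.normSq_eq_norm_sq, ← Complex.normSq_eq_norm_sq,
        ← Complex.normSq_eq_norm_sq]
      simp only [Complex.normSq_apply, Complex.sub_re, Complex.one_re, Complex.mul_re,
        Complex.conj_re, Complex.conj_im, Complex.sub_im, Complex.one_im, Complex.mul_im]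
      ring
    rw [← e1]
    generalize ‖1 - (starRingEnd ℂ) a * h z‖ = D at h1
    field_simp
  have hgd : DifferentiableOn ℂ g (Metric.ball 0 1) := by
    apply diffOn_div
    · exact hd.sub_const _
    · exact (hd.const_mul _).const_sub _
    · intro z hz
      exact hne' z (by simpa using hz)
  have hgm : MapsTo g (Metric.ball 0 1) (Metric.closedBall 0 1) := by
    intro z hz
    have hz' : ‖z‖ < 1 := by simpa using hz
    rw [mem_closedBall_zero_iff]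
    have h1 := hid z hz'
    have h2 := hne z hz'
    have h3 : 0 < ‖1 - (starRingEnd ℂ) a * h z‖ ^ 2 := by
      have : 0 < ‖1 - (starRingEnd ℂ) a * h z‖ := by linarith
      positivity
    have h4 := hm z hz'
    have h5 : 0 < (1 - ‖a‖ ^ 2) * (1 - ‖h z‖ ^ 2) := by
      apply mul_pos
      · nlinarith [norm_nonneg a]
      · nlinarith [norm_nonneg (h z)]
    rw [← h1] at h5
    have h6 := (pos_iff_pos_of_mul_pos h5).2 h3
    nlinarith [norm_nonneg (g z)]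
  have hg0 : g 0 = 0 := by simp [hg, ha]
  refine ⟨(1 - ‖a‖) ^ 2 / (1 - ‖a‖ ^ 2), ?_, fun z hz => ?_⟩
  · apply div_pos
    · have : 0 < 1 - ‖a‖ := by linarith
      positivity
    · nlinarith [norm_nonneg a]
  · have h1 := Complex.norm_le_norm_of_mapsTo_ball hgd hgm hg0 hz
    have h2 := hid z hz
    have h3 := hne z hz
    have hpos : 0 < 1 - ‖a‖ ^ 2 := by nlinarith [norm_nonneg a]
    rw [div_mul_eq_mul_div, div_le_iff₀ hpos]
    have h4 : (1 - ‖a‖) ^ 2 ≤ ‖1 - (starRingEnd ℂ) a * h z‖ ^ 2 := by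
      apply pow_le_pow_left₀ (by linarith) h3
    have h5 : 1 - ‖z‖ ^ 2 ≤ 1 - ‖g z‖ ^ 2 := by nlinarith [norm_nonneg (g z)]
    have h6 : 0 ≤ 1 - ‖z‖ ^ 2 := by nlinarith [norm_nonneg z]
    calc (1 - ‖a‖) ^ 2 * (1 - ‖z‖ ^ 2) ≤ ‖1 - (starRingEnd ℂ) a * h z‖ ^ 2 * (1 - ‖g z‖ ^ 2) :=
          mul_le_mul h4 h5 h6 (by positivity)
      _ = (1 - ‖h z‖ ^ 2) * (1 - ‖a‖ ^ 2) := by rw [mul_comm, h2]; ring

end Pool.TH855.BallMap
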