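import Pool.Agent.TH855.Ball.Bdry

set_option autoImplicit false

namespace Pool.TH855.BallMap

open Set Filter Topology

variable {m M : ℕ}

/-- a linear map preserving `∑‖·‖²` -/
def IsIso (n N : ℕ) (L : (Fin n → ℂ) →ₗ[ℂ] (Fin N → ℂ)) : Prop :=
  ∀ z, ∑ j, ‖L z j‖ ^ 2 = ∑ i, ‖z i‖ ^ 2

lemma IsIso.proper {n N : ℕ} {L : (Fin n → ℂ) →ₗ[ℂ] (Fin N → ℂ)} (h : IsIso n N L) :
    IsProperBall n N L := by
  apply isProperBall_of_closed
  · exact (LinearMap.continuous_on_pi L).continuousOn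
  · intro z hz; rw [h z]; exact hz
  · intro z hz; rw [h z, hz]

lemma IsIso.diff {n N : ℕ} (L : (Fin n → ℂ) →ₗ[ℂ] (Fin N → ℂ)) (S : Set (Fin n → ℂ)) :
    DifferentiableOn ℂ L S :=
  (LinearMap.toContinuousLinearMap L).differentiable.differentiableOn

noncomputable def fd (t : ℝ) : ℝ := Real.sqrt (1 - t)
noncomputable def fG (x : ℝ × (Fin (m + 1) → ℂ)) : ℂ := (1 - x.2 0) / (1 + x.1 * x.2 0)
noncomputable def fV (x : ℝ × (Fin (m + 1) → ℂ)) : Fin m → ℂ := fun i =>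
  (Real.sqrt (1 + x.1) : ℂ) * x.2 i.succ / (1 + x.1 * x.2 0)
noncomputable def fx (x : ℝ × (Fin (m + 1) → ℂ)) : Fin (m + 1) → ℂ :=
  pt m (fd x.1) (fG x) (fV x)

lemma abs_le_of_mem {t : ℝ} (ht : t ∈ Icc (0 : ℝ) 1) : |t| ≤ 1 := abs_le.2 ⟨by linarith [ht.1], ht.2⟩

lemma norm_zero_lt_one {z : Fin (m + 1) → ℂ} (hz : z ∈ Ball (m + 1)) : ‖z 0‖ < 1 := by
  have hz' : ∑ i, ‖z i‖ ^ 2 < 1 := hz
  have : ‖z 0‖ ^ 2 ≤ ∑ i, ‖z i‖ ^ 2 :=
    Finset.single_le_sum (f := fun i => ‖z i‖ ^ 2) (fun _ _ => by positivity) (Finset.mem_univ 0)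
  have h1 : ‖z 0‖ ^ 2 < 1 := this.trans_lt hz'
  nlinarith [norm_nonneg (z 0)]

lemma den_ne {t : ℝ} (ht : t ∈ Icc (0 : ℝ) 1) {z : Fin (m + 1) → ℂ} (hz : z ∈ Ball (m + 1)) :
    (1 + t * z 0 : ℂ) ≠ 0 := by
  intro h
  have h1 : (t * z 0 : ℂ) = -1 := by linear_combination h
  have h2 : ‖(t * z 0 : ℂ)‖ = 1 := by rw [h1]; simp
  rw [norm_mul, Complex.norm_real, Real.norm_eq_abs] at h2
  have h3 := norm_zero_lt_one hz
  have h4 := abs_le_of_mem ht
  have : |t| * ‖z 0‖ < 1 := by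
    have := mul_le_mul_of_nonneg_right h4 (norm_nonneg (z 0))
    linarith
  linarith

lemma fx_eq_phi {t : ℝ} (ht : t ∈ Icc (0 : ℝ) 1) {z : Fin (m + 1) → ℂ} (hz : z ∈ Ball (m + 1)) :
    fx (t, z) = phi m t z := by
  have hne := den_ne ht hz
  have hs : ((fd t : ℝ) : ℂ) ^ 2 = 1 - t := by
    rw [fd, ← Complex.ofReal_pow, Real.sq_sqrt (by linarith [ht.2])]; push_cast; ring
  funext i
  refine Fin.cases ?_ (fun i => ?_) i
  · simp only [fx, pt, phi, Fin.cons_zero, fG]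
    rw [hs]
    field_simp
    ring
  · simp only [fx, pt, phi, Fin.cons_succ, fV]
    have h1 : Real.sqrt (1 - t ^ 2) = fd t * Real.sqrt (1 + t) := by
      rw [fd, ← Real.sqrt_mul (by linarith [ht.2])]
      congr 1; ring
    rw [h1]
    push_cast
    ring

variable (m) in
/-- the domain of the homotopy -/
def Dom : Set (ℝ × (Fin (m + 1) → ℂ)) := Icc (0 : ℝ) 1 ×ˢ Ball (m + 1)

lemma fG_cont : ContinuousOn (fG (m := m)) (Dom m) := by
  unfold fG
  apply ContinuousOn.div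
  · fun_prop
  · have : Continuous fun x : ℝ × (Fin (m + 1) → ℂ) => (x.1 : ℂ) :=
      Complex.continuous_ofReal.comp continuous_fst
    fun_prop
  · intro x hx
    exact den_ne hx.1 hx.2

lemma fV_cont : ContinuousOn (fV (m := m)) (Dom m) := by
  unfold fV
  rw [continuousOn_pi]
  intro i
  have h0 : Continuous fun x : ℝ × (Fin (m + 1) → ℂ) => (x.1 : ℂ) :=
      Complex.continuous_ofReal.comp continuous_fst
  have h1 : Continuous fun x : ℝ × (Fin (m + 1) → ℂ) => ((Real.sqrt (1 + x.1) : ℝ) : ℂ) :=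
    Complex.continuous_ofReal.comp (Real.continuous_sqrt.comp (by fun_prop))
  apply ContinuousOn.div
  · fun_prop
  · fun_prop
  · intro x hx
    exact den_ne hx.1 hx.2

lemma fd_cont : Continuous fun x : ℝ × (Fin (m + 1) → ℂ) => fd x.1 :=
  Real.continuous_sqrt.comp (by fun_prop)

lemma triple_cont : ContinuousOn (fun x : ℝ × (Fin (m + 1) → ℂ) =>
    ((fd x.1, fG x, fV x) : ℝ × ℂ × (Fin m → ℂ))) (Dom m) := by
  have h1 := (fd_cont (m := m)).continuousOn (s := Dom m)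
  have h2 := fG_cont (m := m)
  have h3 := fV_cont (m := m)
  exact ContinuousOn.prodMk h1 (ContinuousOn.prodMk h2 h3)

lemma fx_cont : ContinuousOn (fx (m := m)) (Dom m) := by
  have h1 : ContinuousOn (fun x : ℝ × (Fin (m + 1) → ℂ) => ((fd x.1 : ℝ) : ℂ)) (Dom m) :=
    (Complex.continuous_ofReal.comp (fd_cont (m := m))).continuousOn
  have h2 := fG_cont (m := m)
  have h3 := fV_cont (m := m)
  unfold fx
  rw [continuousOn_pi]
  intro i
  refine Fin.cases ?_ (fun i => ?_) i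
  · simp only [pt, Fin.cons_zero]
    exact continuousOn_const.sub ((h1.pow 2).mul h2)
  · simp only [pt, Fin.cons_succ]
    exact h1.mul (continuousOn_pi.1 h3 i)

noncomputable def fs (α t : ℝ) : ℝ := α * (1 - t) + t
noncomputable def fk (α t : ℝ) : ℝ := (1 - t) * α / fs α t

lemma fs_pos {α t : ℝ} (hα : 0 < α) (ht : t ∈ Icc (0 : ℝ) 1) : 0 < fs α t := by
  unfold fs
  rcases lt_or_eq_of_le ht.2 with h | h
  · have : 0 < α * (1 - t) := mul_pos hα (by linarith)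
    linarith [ht.1]
  · rw [h]; norm_num

lemma fk_pos {α t : ℝ} (hα : 0 < α) (ht : t ∈ Ico (0 : ℝ) 1) : 0 < fk α t := by
  unfold fk
  exact div_pos (mul_pos (by linarith [ht.2]) hα) (fs_pos hα ⟨ht.1, ht.2.le⟩)

lemma fk_le {α t : ℝ} (hα : 0 < α) (ht : t ∈ Icc (0 : ℝ) 1) : fk α t ≤ 1 := by
  unfold fk
  rw [div_le_one (fs_pos hα ht)]
  unfold fs
  linarith [ht.1]

lemma fk_nonneg {α t : ℝ} (hα : 0 < α) (ht : t ∈ Icc (0 : ℝ) 1) : 0 ≤ fk α t := by
  unfold fk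
  exact div_nonneg (mul_nonneg (by linarith [ht.2]) hα.le) (fs_pos hα ht).le

lemma phi_neg_eq {κ : ℝ} (hκ : 0 < κ) (w0 : ℂ) (w : Fin M → ℂ) (g : ℂ)
    (hg : 1 - w0 = κ * g) :
    phi M (-(1 - κ)) (Fin.cons w0 w) =
      Fin.cons ((1 - g) / (g + w0)) (fun j => (Real.sqrt (2 - κ) : ℂ) * (w j / (Real.sqrt κ : ℂ)) /
        (g + w0)) := by
  have hκc : (κ : ℂ) ≠ 0 := by exact_mod_cast hκ.ne'
  have hsκ : ((Real.sqrt κ : ℝ) : ℂ) ≠ 0 := by
    have := Real.sqrt_pos.2 hκ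
    exact_mod_cast this.ne'
  have hsκ2 : ((Real.sqrt κ : ℝ) : ℂ) * ((Real.sqrt κ : ℝ) : ℂ) = κ := by
    rw [← Complex.ofReal_mul, Real.mul_self_sqrt hκ.le]
  have e1 : (1 + ((-(1 - κ) : ℝ) : ℂ) * w0 : ℂ) = κ * (g + w0) := by
    push_cast
    linear_combination hg
  have e0 : (w0 + ((-(1 - κ) : ℝ) : ℂ)) = κ * (1 - g) := by
    push_cast
    linear_combination -hg
  funext i
  refine Fin.cases ?_ (fun i => ?_) i
  · simp only [phi, Fin.cons_zero]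
    rw [e0, e1, mul_div_mul_left _ _ hκc]
  · simp only [phi, Fin.cons_zero, Fin.cons_succ]
    rw [e1]
    have h1 : Real.sqrt (1 - (-(1 - κ)) ^ 2) = Real.sqrt κ * Real.sqrt (2 - κ) := by
      rw [← Real.sqrt_mul hκ.le]
      congr 1; ring
    rw [h1]
    push_cast
    by_cases h : g + w0 = 0
    · rw [h]; simp
    · rw [← hsκ2]
      field_simp

end Pool.TH855.BallMap
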