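import Pool.Agent.TH855.Ball.Fam

set_option autoImplicit false

namespace Pool.TH855.BallMap

open Set Filter Topology

variable {m M : ℕ}

/-- assembling the components -/
noncomputable def asm (F0 : (Fin (m + 1) → ℂ) → ℂ) (F : Fin M → (Fin (m + 1) → ℂ) → ℂ)
    (q : (Fin (m + 1) → ℂ) → ℂ) (z : Fin (m + 1) → ℂ) : Fin (M + 1) → ℂ :=
  Fin.cons (F0 z / q z) (fun j => F j z / q z)

lemma core {F0 : (Fin (m + 1) → ℂ) → ℂ}
    {F : Fin M → (Fin (m + 1) → ℂ) → ℂ} {q : (Fin (m + 1) → ℂ) → ℂ}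
    (hF0 : HasExp F0) (hF : ∀ j, HasExp (F j)) (hq : HasExp q)
    (hq1 : q (pt m 0 0 0) = 1) (hF01 : F0 (pt m 0 0 0) = 1) (hFj : ∀ j, F j (pt m 0 0 0) = 0)
    (hsph : ∀ z, ∑ i, ‖z i‖ ^ 2 = 1 → ‖F0 z‖ ^ 2 + ∑ j, ‖F j z‖ ^ 2 = ‖q z‖ ^ 2)
    (hqne : ∀ z ∈ Ball (m + 1), q z ≠ 0)
    (hp : IsProperBall (m + 1) (M + 1) (asm F0 F q)) {e : ℕ} (he : 1 ≤ e)
    (hrd : RatDeg (m + 1) (M + 1) e (asm F0 F q)) :
    ∃ L : (Fin (m + 1) → ℂ) →ₗ[ℂ] (Fin (M + 1) → ℂ), IsIso (m + 1) (M + 1) L ∧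
      Homotopic (m + 1) (M + 1) (RatDeg (m + 1) (M + 1) e) (asm F0 F q) L := by
  classical
  -- expansions
  obtain ⟨hRd, c0, l, a, Q, E, eR⟩ := hq.sub hF0
  have hc0 : c0 = 0 := by
    rw [← eR.c0_eq 0 0, hq1, hF01, sub_self]
  subst hc0
  choose hFd cj l' a' Q' E' eF using hF
  have hcj : ∀ j, cj j = 0 := fun j => by
    rw [← (eF j).c0_eq 0 0, hFj j]
  simp only [hcj] at eF
  have hball : ∀ z ∈ Ball (m + 1), q z ≠ 0 ∧ ‖F0 z‖ ^ 2 + ∑ j, ‖F j z‖ ^ 2 < ‖q z‖ ^ 2 := by
    intro z hz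
    refine ⟨hqne z hz, ?_⟩
    have h1 : ∑ j, ‖asm F0 F q z j‖ ^ 2 < 1 := hp.1 hz
    rw [Fin.sum_univ_succ] at h1
    simp only [asm, Fin.cons_zero, Fin.cons_succ, norm_div, div_pow] at h1
    have h2 : 0 < ‖q z‖ ^ 2 := by
      have := norm_pos_iff.2 (hqne z hz)
      positivity
    rw [← Finset.sum_div, ← add_div, div_lt_one h2] at h1
    exact h1
  obtain ⟨hl0, hQ0, α, haα, hα, hiso⟩ := boundary_facts hF0.1 hq.1 hsph hball hq1 eR eF
  have hαc : (α : ℂ) ≠ 0 := by exact_mod_cast hα.ne'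
  -- the building blocks
  set Rg : ℝ × (Fin (m + 1) → ℂ) → ℂ := fun x =>
    (α : ℂ) * fG x + (fd x.1 : ℂ) * E (fd x.1) (fG x) (fV x) with hRg
  set Bj : Fin M → ℝ × (Fin (m + 1) → ℂ) → ℂ := fun j x =>
    l' j (fV x) + (fd x.1 : ℂ) * (a' j * fG x + Q' j (fV x) +
      (fd x.1 : ℂ) * E' j (fd x.1) (fG x) (fV x)) with hBj
  set gg : ℝ × (Fin (m + 1) → ℂ) → ℂ := fun x =>
    Rg x * (fs α x.1 : ℂ) / ((α : ℂ) * q (fx x)) with hgg
  set w0 : ℝ × (Fin (m + 1) → ℂ) → ℂ := fun x => F0 (fx x) / q (fx x) with hw0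
  set wj : Fin M → ℝ × (Fin (m + 1) → ℂ) → ℂ := fun j x =>
    Bj j x * (Real.sqrt (fs α x.1 / α) : ℂ) / q (fx x) with hwj
  set H : ℝ → (Fin (m + 1) → ℂ) → (Fin (M + 1) → ℂ) := fun t z =>
    Fin.cons ((1 - gg (t, z)) / (gg (t, z) + w0 (t, z)))
      (fun j => (Real.sqrt (2 - fk α t) : ℂ) * wj j (t, z) / (gg (t, z) + w0 (t, z))) with hH
  have hRge : ∀ x, q (fx x) - F0 (fx x) = (fd x.1 : ℂ) ^ 2 * Rg x := by
    intro x
    have h1 : q (fx x) - F0 (fx x) = _ := eR.eq (fd x.1) (fG x) (fV x)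
    rw [h1, hl0, hQ0, haα]
    simp only [hRg, LinearMap.zero_apply]
    ring
  have hBje : ∀ j x, F j (fx x) = (fd x.1 : ℂ) * Bj j x := by
    intro j x
    have h1 : F j (fx x) = _ := (eF j).eq (fd x.1) (fG x) (fV x)
    rw [h1]
    simp only [hBj]
    ring
  have hfd1 : fd 1 = 0 := by simp [fd]
  have hfx1 : ∀ z : Fin (m + 1) → ℂ, fx (1, z) = pt m 0 0 0 := by
    intro z
    simp only [fx, hfd1]
    exact pt_zero _ _
  have hfd2 : ∀ t ∈ Icc (0 : ℝ) 1, ((fd t : ℝ) : ℂ) ^ 2 = ((1 - t : ℝ) : ℂ) := by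
    intro t ht
    rw [fd, ← Complex.ofReal_pow, Real.sq_sqrt (by linarith [ht.2])]
  have hqx : ∀ x ∈ Dom m, q (fx x) ≠ 0 := by
    rintro ⟨t, z⟩ ⟨ht, hz⟩
    rcases lt_or_eq_of_le ht.2 with h | h
    · rw [fx_eq_phi ht hz]
      apply hqne
      exact (phi_proper (abs_lt.2 ⟨by linarith [ht.1], h⟩)).1 hz
    · simp only at h
      rw [h, hfx1, hq1]
      exact one_ne_zero
  -- for t < 1
  have hlt : ∀ t ∈ Ico (0 : ℝ) 1, ∀ z ∈ Ball (m + 1),
      1 - w0 (t, z) = (fk α t : ℂ) * gg (t, z) := by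
    intro t ht z hz
    have ht' : t ∈ Icc (0 : ℝ) 1 := ⟨ht.1, ht.2.le⟩
    have h1 := hqx (t, z) ⟨ht', hz⟩
    have h2 := hRge (t, z)
    have h3 := hfd2 t ht'
    have h4 : (fs α t : ℂ) ≠ 0 := by exact_mod_cast (fs_pos hα ht').ne'
    simp only [hw0, hgg]
    rw [one_sub_div h1, h2, h3, fk]
    push_cast
    field_simp
  have hgw : ∀ x ∈ Dom m, gg x + w0 x ≠ 0 := by
    rintro ⟨t, z⟩ ⟨ht, hz⟩
    rcases lt_or_eq_of_le ht.2 with h | h
    · have ht2 : t ∈ Ico (0 : ℝ) 1 := ⟨ht.1, h⟩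
      have h1 := hlt t ht2 z hz
      have hk := fk_pos hα ht2
      have hk1 := fk_le hα ht
      have hphi : phi m t z ∈ Ball (m + 1) := (phi_proper (abs_lt.2 ⟨by linarith [ht.1], h⟩)).1 hz
      have h2 : asm F0 F q (phi m t z) ∈ Ball (M + 1) := hp.1 hphi
      have h3 := norm_zero_lt_one h2
      rw [← fx_eq_phi ht hz] at h3
      simp only [asm, Fin.cons_zero] at h3
      have h5 := one_add_mul_ne (s := -(1 - fk α t)) (w := w0 (t, z))
        (abs_lt.2 ⟨by linarith, by linarith⟩) (by simpa only [hw0] using h3.le)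
      intro h0
      apply h5
      push_cast
      have h6 : (fk α t : ℂ) * (gg (t, z) + w0 (t, z)) = 0 := by rw [h0, mul_zero]
      linear_combination h1 + h6
    · simp only at h
      subst h
      have hd := den_ne ht hz
      simp only [hgg, hw0, hRg, hfx1, hq1, hF01, hfd1, fG, fs]
      have : (1 + z 0 : ℂ) ≠ 0 := by simpa using hd
      simp only [Complex.ofReal_zero, Complex.ofReal_one, zero_mul, add_zero, sub_self, mul_zero,
        zero_add, mul_one, one_mul, div_one]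
      rw [mul_div_cancel_left₀ _ hαc]
      intro h0
      field_simp at h0
      norm_num at h0
  have hHeq : ∀ t ∈ Ico (0 : ℝ) 1, ∀ z ∈ Ball (m + 1),
      H t z = phi M (-(1 - fk α t)) (asm F0 F q (phi m t z)) := by
    intro t ht z hz
    have ht' : t ∈ Icc (0 : ℝ) 1 := ⟨ht.1, ht.2.le⟩
    have h1 := hlt t ht z hz
    have hk := fk_pos hα ht
    rw [← fx_eq_phi ht' hz, asm, phi_neg_eq hk _ _ _ h1]
    simp only [hH]
    congr 1
    funext j
    congr 2
    simp only [hwj, hBje]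
    have hs := fs_pos hα ht'
    have e1 : Real.sqrt (fk α t) = fd t * Real.sqrt (α / fs α t) := by
      rw [fk, fd, ← Real.sqrt_mul (by linarith [ht.2])]
      congr 1; ring
    have e2 : Real.sqrt (fs α t / α) * Real.sqrt (α / fs α t) = 1 := by
      rw [← Real.sqrt_mul (by positivity)]
      rw [div_mul_div_cancel₀ hα.ne', div_self hs.ne', Real.sqrt_one]
    have e3 : ((Real.sqrt (fs α t / α) : ℝ) : ℂ) * ((Real.sqrt (α / fs α t) : ℝ) : ℂ) = 1 := by
      rw [← Complex.ofReal_mul, e2, Complex.ofReal_one]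
    have hfdne : ((fd t : ℝ) : ℂ) ≠ 0 := by
      have : 0 < fd t := Real.sqrt_pos.2 (by linarith [ht.2])
      exact_mod_cast this.ne'
    have hsq : ((Real.sqrt (α / fs α t) : ℝ) : ℂ) ≠ 0 := by
      intro h0
      rw [h0, mul_zero] at e3
      exact zero_ne_one e3
    have hqne' := hqx (t, z) ⟨ht', hz⟩
    rw [e1]
    push_cast
    rw [div_div, eq_div_iff (mul_ne_zero hqne' (mul_ne_zero hfdne hsq))]
    rw [div_mul_eq_mul_div, div_eq_iff hqne']
    linear_combination (q (fx (t, z)) * (fd t : ℂ) * Bj j (t, z)) * e3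
  -- the limit map
  set L : (Fin (m + 1) → ℂ) →ₗ[ℂ] (Fin (M + 1) → ℂ) :=
    LinearMap.pi (Fin.cons (LinearMap.proj 0)
      (fun j => ((1 / Real.sqrt α : ℝ) : ℂ) •
        ((l' j).comp (LinearMap.pi (fun i : Fin m => LinearMap.proj i.succ))))) with hL
  have hL0 : ∀ z, L z 0 = z 0 := by
    intro z
    simp [hL]
  have hLs : ∀ z (j : Fin M), L z j.succ = ((1 / Real.sqrt α : ℝ) : ℂ) *
      l' j (fun i => z i.succ) := by
    intro z j
    simp only [hL, LinearMap.pi_apply, Fin.cons_succ, LinearMap.smul_apply, LinearMap.comp_apply,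
      smul_eq_mul]
    rfl
  have hLiso : IsIso (m + 1) (M + 1) L := by
    intro z
    rw [Fin.sum_univ_succ, Fin.sum_univ_succ (f := fun i => ‖z i‖ ^ 2), hL0]
    congr 1
    simp only [hLs, norm_mul, mul_pow]
    rw [← Finset.mul_sum, ← hiso (fun i => z i.succ), Complex.norm_real, Real.norm_eq_abs, sq_abs,
      one_div, inv_pow, Real.sq_sqrt hα.le]
    field_simp
  have hH1 : ∀ z ∈ Ball (m + 1), H 1 z = L z := by
    intro z hz
    have hd : (1 + z 0 : ℂ) ≠ 0 := by
      have := den_ne (show (1 : ℝ) ∈ Icc (0 : ℝ) 1 by norm_num) hz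
      simpa using this
    have hg1 : gg (1, z) = (1 - z 0) / (1 + z 0) := by
      simp only [hgg, hRg, hfx1, hq1, hfd1, fG, fs]
      simp only [Complex.ofReal_zero, Complex.ofReal_one, zero_mul, add_zero, sub_self, mul_zero,
        zero_add, mul_one, one_mul]
      rw [mul_div_cancel_left₀ _ hαc]
    have hw1 : w0 (1, z) = 1 := by
      simp only [hw0, hfx1, hq1, hF01, div_one]
    have hk1 : fk α 1 = 0 := by simp [fk]
    funext i
    refine Fin.cases ?_ (fun j => ?_) i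
    · rw [hL0]
      simp only [hH, Fin.cons_zero, hg1, hw1]
      have h3 : (1 - z 0) / (1 + z 0) + 1 = 2 / (1 + z 0) := by
        field_simp; ring
      rw [h3]
      field_simp
      ring
    · rw [hLs]
      simp only [hH, Fin.cons_succ, hg1, hw1, hk1]
      have h3 : (1 - z 0) / (1 + z 0) + 1 = 2 / (1 + z 0) := by
        field_simp; ring
      rw [h3]
      simp only [hwj, hBj, hfx1, hq1, hfd1]
      have hfs : fs α 1 = 1 := by simp [fs]
      rw [hfs]
      have hV : fV ((1 : ℝ), z) = ((Real.sqrt 2 : ℂ) / (1 + z 0)) • (fun i : Fin m => z i.succ) := by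
        funext i
        simp only [fV, Pi.smul_apply, smul_eq_mul]
        norm_num
        ring
      rw [hV, map_smul]
      simp only [Complex.ofReal_zero, zero_mul, add_zero, smul_eq_mul, sub_zero, div_one]
      have h2 : ((Real.sqrt 2 : ℝ) : ℂ) * ((Real.sqrt 2 : ℝ) : ℂ) = 2 := by
        rw [← Complex.ofReal_mul, Real.mul_self_sqrt (by norm_num)]
        norm_num
      have h4 : Real.sqrt (1 / α) = 1 / Real.sqrt α := by
        rw [Real.sqrt_div zero_le_one, Real.sqrt_one]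
      rw [h4]
      rw [div_eq_iff (div_ne_zero two_ne_zero hd)]
      field_simp
      linear_combination (((1 / Real.sqrt α : ℝ) : ℂ) * l' j (fun i => z i.succ)) * h2
  have hasm : DifferentiableOn ℂ (asm F0 F q) (Ball (m + 1)) := by
    rw [differentiableOn_pi]
    intro i
    refine Fin.cases ?_ (fun j => ?_) i
    · simp only [asm, Fin.cons_zero]
      exact diffOn_div hF0.1.differentiableOn hq.1.differentiableOn hqne
    · simp only [asm, Fin.cons_succ]
      exact diffOn_div (hFd j).differentiableOn hq.1.differentiableOn hqne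
  refine ⟨L, hLiso, H, ?_, ?_, ?_⟩
  · -- continuity
    have hcd : ContinuousOn (fun x : ℝ × (Fin (m + 1) → ℂ) => ((fd x.1 : ℝ) : ℂ)) (Dom m) :=
      (Complex.continuous_ofReal.comp (fd_cont (m := m))).continuousOn
    have hcG := fG_cont (m := m)
    have hcV := fV_cont (m := m)
    have h3 := triple_cont (m := m)
    have hcE : ContinuousOn (fun x : ℝ × (Fin (m + 1) → ℂ) => E (fd x.1) (fG x) (fV x)) (Dom m) :=
      eR.hE.comp_continuousOn h3
    have hcE' : ∀ j, ContinuousOn (fun x : ℝ × (Fin (m + 1) → ℂ) =>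
        E' j (fd x.1) (fG x) (fV x)) (Dom m) := fun j =>
      (eF j).hE.comp_continuousOn h3
    have hcQ' : ∀ j, ContinuousOn (fun x : ℝ × (Fin (m + 1) → ℂ) => Q' j (fV x)) (Dom m) :=
      fun j => (eF j).hQc.comp_continuousOn hcV
    have hcl' : ∀ j, ContinuousOn (fun x : ℝ × (Fin (m + 1) → ℂ) => l' j (fV x)) (Dom m) :=
      fun j => (lin_cont (l' j)).comp_continuousOn hcV
    have hcR : ContinuousOn Rg (Dom m) := by
      simp only [hRg]
      exact (continuousOn_const.mul hcG).add (hcd.mul hcE)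
    have hcB : ∀ j, ContinuousOn (Bj j) (Dom m) := by
      intro j
      simp only [hBj]
      exact (hcl' j).add (hcd.mul (((continuousOn_const.mul hcG).add (hcQ' j)).add
        (hcd.mul (hcE' j))))
    have hcq : ContinuousOn (fun x => q (fx x)) (Dom m) :=
      hq.1.continuous.comp_continuousOn fx_cont
    have hcF0 : ContinuousOn (fun x => F0 (fx x)) (Dom m) :=
      hF0.1.continuous.comp_continuousOn fx_cont
    have hcfs : Continuous fun x : ℝ × (Fin (m + 1) → ℂ) => fs α x.1 := by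
      unfold fs
      fun_prop
    have hcfs' : ContinuousOn (fun x : ℝ × (Fin (m + 1) → ℂ) => ((fs α x.1 : ℝ) : ℂ)) (Dom m) :=
      (Complex.continuous_ofReal.comp hcfs).continuousOn
    have hcg : ContinuousOn gg (Dom m) := by
      simp only [hgg]
      exact (hcR.mul hcfs').div (continuousOn_const.mul hcq)
        (fun x hx => mul_ne_zero hαc (hqx x hx))
    have hcw0 : ContinuousOn w0 (Dom m) := by
      simp only [hw0]
      exact hcF0.div hcq hqx
    have hcwj : ∀ j, ContinuousOn (wj j) (Dom m) := by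
      intro j
      simp only [hwj]
      have : Continuous fun x : ℝ × (Fin (m + 1) → ℂ) =>
          ((Real.sqrt (fs α x.1 / α) : ℝ) : ℂ) :=
        Complex.continuous_ofReal.comp (Real.continuous_sqrt.comp (hcfs.div_const _))
      exact ((hcB j).mul this.continuousOn).div hcq hqx
    have hcfk : ContinuousOn (fun x : ℝ × (Fin (m + 1) → ℂ) =>
        ((Real.sqrt (2 - fk α x.1) : ℝ) : ℂ)) (Dom m) := by
      apply Complex.continuous_ofReal.comp_continuousOn
      apply Real.continuous_sqrt.comp_continuousOn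
      unfold fk
      apply continuousOn_const.sub
      apply ContinuousOn.div
      · fun_prop
      · exact hcfs.continuousOn
      · intro x hx
        exact (fs_pos hα hx.1).ne'
    show ContinuousOn (fun x : ℝ × (Fin (m + 1) → ℂ) => H x.1 x.2) (Dom m)
    rw [continuousOn_pi]
    intro i
    refine Fin.cases ?_ (fun j => ?_) i
    · simp only [hH, Fin.cons_zero]
      exact (continuousOn_const.sub hcg).div (hcg.add hcw0) hgw
    · simp only [hH, Fin.cons_succ]
      exact (hcfk.mul (hcwj j)).div (hcg.add hcw0) hgw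
  · intro t ht
    rcases lt_or_eq_of_le ht.2 with h | h
    · have ht2 : t ∈ Ico (0 : ℝ) 1 := ⟨ht.1, h⟩
      have habs : |t| < 1 := abs_lt.2 ⟨by linarith [ht.1], h⟩
      have hk := fk_pos hα ht2
      have hk1 := fk_le hα ht
      have habs2 : |(-(1 - fk α t))| < 1 := abs_lt.2 ⟨by linarith, by linarith⟩
      have hp1 := phi_proper (m := m) habs
      have hp2 := phi_proper (m := M) habs2
      have hd1 := (phi_differentiableOn (m := m) habs).mono (Ball_subset (m + 1))
      have hd2 := (phi_differentiableOn (m := M) habs2).mono (Ball_subset (M + 1))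
      refine ⟨?_, ?_, ?_⟩
      · have h5 : DifferentiableOn ℂ (phi M (-(1 - fk α t)) ∘ (asm F0 F q ∘ phi m t))
            (Ball (m + 1)) := hd2.comp (hasm.comp hd1 hp1.1) (hp.1.comp hp1.1)
        exact h5.congr (fun z hz => hHeq t ht2 z hz)
      · exact ((hp1.comp hp).comp hp2).congr (fun z hz => hHeq t ht2 z hz)
      · exact ((hrd.comp_frac hp1.1 (RatDeg.phi habs)).left_phi (hp.1.comp hp1.1) habs2).congr
          (fun z hz => hHeq t ht2 z hz)
    · subst h
      refine ⟨?_, ?_, ?_⟩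
      · exact (IsIso.diff L _).congr (fun z hz => hH1 z hz)
      · exact hLiso.proper.congr (fun z hz => hH1 z hz)
      · exact (RatDeg.linear he L).congr (fun z hz => hH1 z hz)
  · intro z hz
    refine ⟨?_, hH1 z hz⟩
    rw [hHeq 0 (by norm_num) z hz]
    have : fk α 0 = 1 := by
      unfold fk fs
      field_simp
      ring
    rw [this, sub_self, neg_zero, phi_zero, phi_zero]

end Pool.TH855.BallMap
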