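import Pool.Agent.TH855.Ball.Fam2
import Pool.Agent.TH855.Ball.Conn

set_option autoImplicit false

namespace Pool.TH855.BallMap

open Set Filter Topology

lemma poly_cont {n : ℕ} (p : MvPolynomial (Fin n) ℂ) :
    Continuous fun z : Fin n → ℂ => MvPolynomial.eval z p := MvPolynomial.continuous_eval p

lemma smul_mem_Ball {n : ℕ} {z : Fin n → ℂ} (hz : ∑ i, ‖z i‖ ^ 2 = 1) {r : ℝ} (h0 : 0 ≤ r)
    (h1 : r < 1) : (r : ℂ) • z ∈ Ball n := by
  show ∑ i, ‖((r : ℂ) • z) i‖ ^ 2 < 1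
  simp only [Pi.smul_apply, smul_eq_mul, norm_mul, mul_pow, Complex.norm_real, Real.norm_eq_abs,
    sq_abs]
  rw [← Finset.mul_sum, hz, mul_one]
  nlinarith

lemma norm_tendsto {n N : ℕ} {f : (Fin n → ℂ) → (Fin N → ℂ)} (hp : IsProperBall n N f)
    {z : Fin n → ℂ} (hz : ∑ i, ‖z i‖ ^ 2 = 1) :
    Tendsto (fun r : ℝ => ∑ j, ‖f ((r : ℂ) • z) j‖ ^ 2) (𝓝[<] 1) (𝓝 1) := by
  rw [tendsto_order]
  constructor
  · intro a ha
    set K : Set (Fin N → ℂ) := {w | ∑ j, ‖w j‖ ^ 2 ≤ a} with hK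
    have hKc : IsCompact K := by
      apply (isCompact_closed_ball N).of_isClosed_subset
      · exact isClosed_le (by fun_prop) continuous_const
      · intro w hw
        exact le_trans (show ∑ j, ‖w j‖ ^ 2 ≤ a from hw) ha.le
    have hKB : K ⊆ Ball N := fun w hw => lt_of_le_of_lt (show ∑ j, ‖w j‖ ^ 2 ≤ a from hw) ha
    have hC := hp.2 K hKc hKB
    have hzC : z ∉ Ball n ∩ f ⁻¹' K := by
      rintro ⟨h1, _⟩
      have h2 : ∑ i, ‖z i‖ ^ 2 < 1 := h1
      linarith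
    have hnb : (Ball n ∩ f ⁻¹' K)ᶜ ∈ 𝓝 z := hC.isClosed.isOpen_compl.mem_nhds hzC
    have hcont : Continuous fun r : ℝ => (r : ℂ) • z := by fun_prop
    have ht : Tendsto (fun r : ℝ => (r : ℂ) • z) (𝓝[<] 1) (𝓝 z) := by
      have := (hcont.tendsto 1).mono_left (nhdsWithin_le_nhds (s := Iio (1 : ℝ)))
      simpa using this
    filter_upwards [ht hnb, Ioo_mem_nhdsLT (zero_lt_one' ℝ)] with r hr hr2
    by_contra hcon
    push Not at hcon
    exact hr ⟨smul_mem_Ball hz hr2.1.le hr2.2, hcon⟩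
  · intro a ha
    filter_upwards [Ioo_mem_nhdsLT (zero_lt_one' ℝ)] with r hr2
    have h1 : ∑ j, ‖f ((r : ℂ) • z) j‖ ^ 2 < 1 := hp.1 (smul_mem_Ball hz hr2.1.le hr2.2)
    exact h1.trans ha

lemma sphere_identity {n N : ℕ} {f : (Fin n → ℂ) → (Fin N → ℂ)} (hp : IsProperBall n N f)
    {P : Fin N → MvPolynomial (Fin n) ℂ} {Q : MvPolynomial (Fin n) ℂ} (hr : IsRep n N f P Q)
    {z : Fin n → ℂ} (hz : ∑ i, ‖z i‖ ^ 2 = 1) :
    ∑ j, ‖MvPolynomial.eval z (P j)‖ ^ 2 = ‖MvPolynomial.eval z Q‖ ^ 2 := by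
  have h1 := norm_tendsto hp hz
  have hcont : Continuous fun r : ℝ => (r : ℂ) • z := by fun_prop
  have hQ : Continuous fun r : ℝ => ‖MvPolynomial.eval ((r : ℂ) • z) Q‖ ^ 2 :=
    ((poly_cont Q).comp hcont).norm.pow 2
  have hP : Continuous fun r : ℝ => ∑ j, ‖MvPolynomial.eval ((r : ℂ) • z) (P j)‖ ^ 2 :=
    continuous_finsetSum _ fun j _ => ((poly_cont (P j)).comp hcont).norm.pow 2
  have tQ := (hQ.tendsto 1).mono_left (nhdsWithin_le_nhds (s := Iio (1 : ℝ)))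
  have tP := (hP.tendsto 1).mono_left (nhdsWithin_le_nhds (s := Iio (1 : ℝ)))
  simp only [Complex.ofReal_one, one_smul] at tQ tP
  have t2 := h1.mul tQ
  rw [one_mul] at t2
  refine tendsto_nhds_unique tP (t2.congr' ?_)
  filter_upwards [Ioo_mem_nhdsLT (zero_lt_one' ℝ)] with r hr2
  obtain ⟨h2, h3⟩ := hr _ (smul_mem_Ball hz hr2.1.le hr2.2)
  have h4 : ‖MvPolynomial.eval ((r : ℂ) • z) Q‖ ^ 2 ≠ 0 := by
    have := norm_pos_iff.2 h2
    positivity
  simp only [h3, norm_div, div_pow]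
  rw [← Finset.sum_div, div_mul_cancel₀ _ h4]

/-- `rot` as a linear map -/
def rotL (m : ℕ) (lam : ℂ) : (Fin (m + 1) → ℂ) →ₗ[ℂ] (Fin (m + 1) → ℂ) :=
  LinearMap.pi (Fin.cons (lam • LinearMap.proj 0) (fun i : Fin m => LinearMap.proj i.succ))

lemma rotL_apply (m : ℕ) (lam : ℂ) (z : Fin (m + 1) → ℂ) : rotL m lam z = rot m lam z := by
  funext i
  refine Fin.cases ?_ (fun i => ?_) i
  · simp [rotL, rot]
  · simp [rotL, rot]

lemma rotL_iso (m : ℕ) {lam : ℂ} (h : ‖lam‖ = 1) : IsIso (m + 1) (m + 1) (rotL m lam) := by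
  intro z
  rw [rotL_apply, Fin.sum_univ_succ, Fin.sum_univ_succ (f := fun i => ‖z i‖ ^ 2)]
  simp [rot, h]

lemma rot_rot (m : ℕ) {lam mu : ℂ} (h : lam * mu = 1) (z : Fin (m + 1) → ℂ) :
    rot m lam (rot m mu z) = z := by
  funext i
  refine Fin.cases ?_ (fun i => ?_) i
  · simp only [rot, Fin.cons_zero]
    rw [← mul_assoc, h, one_mul]
  · simp only [rot, Fin.cons_succ]

/-- a unit scalar where the denominator does not vanish -/
lemma exists_unit (m : ℕ) (Q : MvPolynomial (Fin (m + 1)) ℂ)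
    (h0 : MvPolynomial.eval (0 : Fin (m + 1) → ℂ) Q ≠ 0) :
    ∃ lam : ℂ, ‖lam‖ = 1 ∧ MvPolynomial.eval (rot m lam (pt m 0 0 0)) Q ≠ 0 := by
  set c : Polynomial ℂ := MvPolynomial.aeval (Fin.cons Polynomial.X (fun _ => 0) :
    Fin (m + 1) → Polynomial ℂ) Q with hc
  have hce : ∀ x : ℂ, c.eval x = MvPolynomial.eval (Fin.cons x (fun _ => 0)) Q := by
    intro x
    have h1 := MvPolynomial.eval₂_comp_left (Polynomial.evalRingHom x) (algebraMap ℂ (Polynomial ℂ))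
      (Fin.cons Polynomial.X (fun _ => 0) : Fin (m + 1) → Polynomial ℂ) Q
    rw [hc, MvPolynomial.aeval_def]
    have h2 : Polynomial.eval x (MvPolynomial.eval₂ (algebraMap ℂ (Polynomial ℂ))
      (Fin.cons Polynomial.X (fun _ => 0) : Fin (m + 1) → Polynomial ℂ) Q) = _ := h1
    rw [h2, MvPolynomial.eval, MvPolynomial.coe_eval₂Hom]
    congr 1
    · ext a <;> simp
    · funext i
      refine Fin.cases ?_ (fun i => ?_) i <;> simp
  have hc0 : c ≠ 0 := by
    intro h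
    apply h0
    have h1 := hce 0
    rw [h, Polynomial.eval_zero] at h1
    rw [h1]
    congr 1
    congr 1
    funext i
    refine Fin.cases ?_ (fun i => ?_) i <;> simp
  have hinf : (Metric.sphere (0 : ℂ) 1).Infinite := by
    apply (isPreconnected_sphere (by rw [Complex.rank_real_complex]; exact_mod_cast one_lt_two)
      (0 : ℂ) 1).infinite_of_nontrivial
    refine ⟨1, by simp, -1, by simp, ?_⟩
    norm_num
  have hfin := c.rootSet_finite ℂ
  obtain ⟨lam, h1, h2⟩ := (hinf.sdiff hfin).nonempty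
  refine ⟨lam, by simpa using h1, ?_⟩
  intro h3
  apply h2
  rw [Polynomial.mem_rootSet]
  refine ⟨hc0, ?_⟩
  have e : (Fin.cons lam (fun _ => 0) : Fin (m + 1) → ℂ) = rot m lam (pt m 0 0 0) := by
    funext i
    refine Fin.cases ?_ (fun i => ?_) i
    · simp [rot, pt]
    · simp [rot, pt]
  rw [Polynomial.coe_aeval_eq_eval, hce, e]
  exact h3

lemma sum_pt_zero (m : ℕ) : ∑ i, ‖pt m 0 0 0 i‖ ^ 2 = 1 := by
  rw [Fin.sum_univ_succ]
  simp [pt]

theorem to_linear {m N : ℕ} {f : (Fin (m + 1) → ℂ) → (Fin N → ℂ)}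
    (hp : IsProperBall (m + 1) N f) {e : ℕ} (he : 1 ≤ e) (hrd : RatDeg (m + 1) N e f) :
    ∃ L : (Fin (m + 1) → ℂ) →ₗ[ℂ] (Fin N → ℂ), IsIso (m + 1) N L ∧
      Homotopic (m + 1) N (RatDeg (m + 1) N e) f L := by
  obtain ⟨P, Q, hPd, hQd, hr⟩ := id hrd
  rcases Nat.eq_zero_or_pos N with hN | hN
  · exfalso
    subst hN
    have h1 := norm_tendsto hp (sum_pt_zero m)
    simp only [Finset.univ_eq_empty, Finset.sum_empty] at h1
    have h2 := tendsto_nhds_unique h1 (tendsto_const_nhds (x := (0 : ℝ)))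
    norm_num at h2
  obtain ⟨M, rfl⟩ : ∃ M, N = M + 1 := ⟨N - 1, by omega⟩
  have h0B : (0 : Fin (m + 1) → ℂ) ∈ Ball (m + 1) := by
    show ∑ i, ‖(0 : Fin (m + 1) → ℂ) i‖ ^ 2 < 1
    simp
  obtain ⟨lam, hlam, hq0⟩ := exists_unit m Q (hr 0 h0B).1
  set e1 : Fin (m + 1) → ℂ := rot m lam (pt m 0 0 0) with he1
  set q0 := MvPolynomial.eval e1 Q with hq0d
  have hrotS : ∀ z : Fin (m + 1) → ℂ, ∑ i, ‖rot m lam z i‖ ^ 2 = ∑ i, ‖z i‖ ^ 2 := by
    intro z
    rw [← rotL_apply]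
    exact rotL_iso m hlam z
  have hrotB : ∀ z ∈ Ball (m + 1), rot m lam z ∈ Ball (m + 1) := by
    intro z hz
    show ∑ i, ‖rot m lam z i‖ ^ 2 < 1
    rw [hrotS]; exact hz
  have he1S : ∑ i, ‖e1 i‖ ^ 2 = 1 := by rw [he1, hrotS, sum_pt_zero]
  set c : Fin (M + 1) → ℂ := fun j => q0⁻¹ * MvPolynomial.eval e1 (P j) with hc
  have hcS : ∑ j, ‖c j‖ ^ 2 = 1 := by
    simp only [hc, norm_mul, mul_pow]
    rw [← Finset.mul_sum, sphere_identity hp hr he1S, norm_inv, inv_pow]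
    have : ‖q0‖ ^ 2 ≠ 0 := by
      have := norm_pos_iff.2 hq0
      positivity
    exact inv_mul_cancel₀ this
  obtain ⟨V, V', hV, hV', hVV, hVc⟩ := exists_rot c hcS
  -- the normalised data
  set q : (Fin (m + 1) → ℂ) → ℂ := fun z => q0⁻¹ * MvPolynomial.eval (rot m lam z) Q with hq
  set Pv : (Fin (m + 1) → ℂ) → (Fin (M + 1) → ℂ) := fun z k =>
    q0⁻¹ * MvPolynomial.eval (rot m lam z) (P k) with hPv
  set F : Fin (M + 1) → (Fin (m + 1) → ℂ) → ℂ := fun j z => V (Pv z) j with hF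
  have hqE : HasExp q := (HasExp.poly lam Q).const_mul _
  have hFE : ∀ j, HasExp (F j) := by
    intro j
    have h1 : F j = fun z => ∑ k, (V (fun i => if k = i then 1 else 0) j) * Pv z k := by
      funext z
      simp only [hF]
      rw [LinearMap.pi_apply_eq_sum_univ V (Pv z), Finset.sum_apply]
      apply Finset.sum_congr rfl
      intro k _
      rw [Pi.smul_apply, smul_eq_mul, mul_comm]
    rw [h1]
    apply HasExp.sum
    intro k
    exact ((HasExp.poly lam (P k)).const_mul _).const_mul _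
  have hq1 : q (pt m 0 0 0) = 1 := by
    simp only [hq]
    exact inv_mul_cancel₀ hq0
  have hF1 : ∀ j, F j (pt m 0 0 0) = (Pi.single 0 1 : Fin (M + 1) → ℂ) j := by
    intro j
    simp only [hF]
    rw [← hVc]
  have hqne : ∀ z ∈ Ball (m + 1), q z ≠ 0 := by
    intro z hz
    simp only [hq]
    exact mul_ne_zero (inv_ne_zero hq0) (hr _ (hrotB z hz)).1
  have hsph : ∀ z, ∑ i, ‖z i‖ ^ 2 = 1 →
      ‖F 0 z‖ ^ 2 + ∑ j : Fin M, ‖F j.succ z‖ ^ 2 = ‖q z‖ ^ 2 := by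
    intro z hz
    have h1 : ‖F 0 z‖ ^ 2 + ∑ j : Fin M, ‖F j.succ z‖ ^ 2 = ∑ j, ‖F j z‖ ^ 2 := by
      rw [Fin.sum_univ_succ]
    rw [h1]
    simp only [hF]
    rw [hV (Pv z)]
    simp only [hPv, hq, norm_mul, mul_pow]
    rw [← Finset.mul_sum, sphere_identity hp hr (by rw [hrotS, hz])]
  have heq : ∀ z ∈ Ball (m + 1),
      asm (F 0) (fun j : Fin M => F j.succ) q z = V (f (rotL m lam z)) := by
    intro z hz
    have h1 := hr _ (hrotB z hz)
    have h2 : f (rot m lam z) = (q z)⁻¹ • Pv z := by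
      funext k
      rw [h1.2 k]
      simp only [hq, hPv, Pi.smul_apply, smul_eq_mul]
      have := h1.1
      field_simp
    rw [rotL_apply, h2, map_smul]
    funext i
    refine Fin.cases ?_ (fun i => ?_) i
    · simp only [asm, Fin.cons_zero, hF, Pi.smul_apply, smul_eq_mul]
      rw [div_eq_inv_mul]
    · simp only [asm, Fin.cons_succ, hF, Pi.smul_apply, smul_eq_mul]
      rw [div_eq_inv_mul]
  have hpr : IsProperBall (m + 1) (M + 1) (asm (F 0) (fun j : Fin M => F j.succ) q) :=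
    (((rotL_iso m hlam).proper.comp hp).comp hV.proper).congr heq
  have hrdn : RatDeg (m + 1) (M + 1) e (asm (F 0) (fun j : Fin M => F j.succ) q) :=
    ((hrd.comp_frac (rotL_iso m hlam).proper.1 (RatDeg.linear le_rfl _)).left_linear V).congr heq
  obtain ⟨L, hL, hLH⟩ := core (hFE 0) (fun j => hFE j.succ) hqE hq1
    (by rw [hF1]; simp) (fun j => by rw [hF1]; simp) hsph hqne hpr he hrdn
  have hlam0 : lam ≠ 0 := by
    intro h; rw [h, norm_zero] at hlam; exact zero_ne_one hlam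
  have hlami : ‖lam⁻¹‖ = 1 := by rw [norm_inv, hlam, inv_one]
  have hcomp := hLH.comp (rotL_iso m hlami).proper hV'.proper (IsIso.diff _ _) (IsIso.diff _ _)
    (fun h hh => (hh.comp_frac (rotL_iso m hlami).proper.1 (RatDeg.linear le_rfl _)).left_linear V')
  refine ⟨V'.comp (L.comp (rotL m lam⁻¹)), ?_, ?_⟩
  · intro z
    simp only [LinearMap.comp_apply]
    rw [hV', hL, rotL_iso m hlami]
  · apply hcomp.congr
    · intro z hz
      have hz' : rotL m lam⁻¹ z ∈ Ball (m + 1) := (rotL_iso m hlami).proper.1 hz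
      simp only [Function.comp]
      rw [heq _ hz', hVV, rotL_apply, rotL_apply, rot_rot m (mul_inv_cancel₀ hlam0)]
    · intro z _
      rfl

/-- a proper map is not of degree zero -/
lemma one_le_of_proper {n N : ℕ} (hn : 0 < n) {f : (Fin n → ℂ) → (Fin N → ℂ)}
    (hp : IsProperBall n N f) {e : ℕ} (h : RatDeg n N e f) : 1 ≤ e := by
  by_contra hcon
  have he : e = 0 := by omega
  subst he
  obtain ⟨m, rfl⟩ : ∃ m, n = m + 1 := ⟨n - 1, by omega⟩
  obtain ⟨P, Q, hP, hQ, hr⟩ := h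
  have hPc : ∀ j, P j = MvPolynomial.C ((P j).coeff 0) := fun j =>
    MvPolynomial.totalDegree_eq_zero_iff_eq_C.1 (Nat.le_zero.1 (hP j))
  have hQc : Q = MvPolynomial.C (Q.coeff 0) :=
    MvPolynomial.totalDegree_eq_zero_iff_eq_C.1 (Nat.le_zero.1 hQ)
  have h0B : (0 : Fin (m + 1) → ℂ) ∈ Ball (m + 1) := by
    show ∑ i, ‖(0 : Fin (m + 1) → ℂ) i‖ ^ 2 < 1
    simp
  have hconst : ∀ z ∈ Ball (m + 1), f z = f 0 := by
    intro z hz
    funext j
    rw [(hr z hz).2 j, (hr 0 h0B).2 j, hPc j, hQc]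
    simp
  have h1 := norm_tendsto hp (sum_pt_zero m)
  have h2 : Tendsto (fun r : ℝ => ∑ j, ‖f ((r : ℂ) • pt m 0 0 0) j‖ ^ 2) (𝓝[<] 1)
      (𝓝 (∑ j, ‖f 0 j‖ ^ 2)) := by
    apply tendsto_const_nhds.congr'
    filter_upwards [Ioo_mem_nhdsLT (zero_lt_one' ℝ)] with r hr2
    rw [hconst _ (smul_mem_Ball (sum_pt_zero m) hr2.1.le hr2.2)]
  have h3 := tendsto_nhds_unique h1 h2
  have h4 : ∑ j, ‖f 0 j‖ ^ 2 < 1 := hp.1 h0B
  linarith

lemma dim_pos {n N : ℕ} (hn : 0 < n) {f : (Fin n → ℂ) → (Fin N → ℂ)}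
    (hp : IsProperBall n N f) : 0 < N := by
  rcases Nat.eq_zero_or_pos N with hN | hN
  · exfalso
    subst hN
    obtain ⟨m, rfl⟩ : ∃ m, n = m + 1 := ⟨n - 1, by omega⟩
    have h1 := norm_tendsto hp (sum_pt_zero m)
    simp only [Finset.univ_eq_empty, Finset.sum_empty] at h1
    have h2 := tendsto_nhds_unique h1 (tendsto_const_nhds (x := (0 : ℝ)))
    norm_num at h2
  · exact hN

/-- **Any two proper rational maps between balls are homotopic through proper rational maps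
of no larger degree.** -/
theorem rational_homotopic {n N : ℕ} (hn : 0 < n) {f g : (Fin n → ℂ) → (Fin N → ℂ)}
    (hf : IsProperBall n N f) (hg : IsProperBall n N g) {e : ℕ}
    (hr : RatDeg n N e f) (hr' : RatDeg n N e g) : Homotopic n N (RatDeg n N e) f g := by
  have he := one_le_of_proper hn hf hr
  obtain ⟨m, rfl⟩ : ∃ m, n = m + 1 := ⟨n - 1, by omega⟩
  obtain ⟨L, hL, h1⟩ := to_linear hf he hr
  obtain ⟨L', hL', h2⟩ := to_linear hg he hr'
  exact (h1.trans (iso_homotopic hL hL' he)).trans h2.symm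

end Pool.TH855.BallMap
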