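import Pool.Agent.TH855.Ball.Auto

set_option autoImplicit false

namespace Pool.TH855.BallMap

open Set Filter Topology

/-- `f = P / Q` on the ball -/
def IsRep (n N : ℕ) (f : (Fin n → ℂ) → (Fin N → ℂ)) (P : Fin N → MvPolynomial (Fin n) ℂ)
    (Q : MvPolynomial (Fin n) ℂ) : Prop :=
  ∀ z ∈ Ball n, MvPolynomial.eval z Q ≠ 0 ∧
    ∀ j, f z j = MvPolynomial.eval z (P j) / MvPolynomial.eval z Q

/-- `f` is rational on the ball, of degree at most `e` -/
def RatDeg (n N e : ℕ) (f : (Fin n → ℂ) → (Fin N → ℂ)) : Prop :=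
  ∃ P : Fin N → MvPolynomial (Fin n) ℂ, ∃ Q : MvPolynomial (Fin n) ℂ,
    (∀ j, (P j).totalDegree ≤ e) ∧ Q.totalDegree ≤ e ∧ IsRep n N f P Q

variable {n N M m e : ℕ}

lemma RatDeg.congr {f g : (Fin n → ℂ) → (Fin N → ℂ)} (h : RatDeg n N e f)
    (hfg : ∀ z ∈ Ball n, g z = f z) : RatDeg n N e g := by
  obtain ⟨P, Q, h1, h2, h3⟩ := h
  exact ⟨P, Q, h1, h2, fun z hz => ⟨(h3 z hz).1, fun j => by rw [hfg z hz]; exact (h3 z hz).2 j⟩⟩

/-- the polynomial form of a linear functional -/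
noncomputable def linPoly (c : Fin n → ℂ) : MvPolynomial (Fin n) ℂ :=
  ∑ i, MvPolynomial.C (c i) * MvPolynomial.X i

lemma linPoly_deg (c : Fin n → ℂ) : (linPoly c).totalDegree ≤ 1 := by
  unfold linPoly
  refine MvPolynomial.totalDegree_finsetSum_le ?_
  intro i _
  refine (MvPolynomial.totalDegree_mul _ _).trans ?_
  rw [MvPolynomial.totalDegree_C, MvPolynomial.totalDegree_X]

lemma linPoly_eval (c : Fin n → ℂ) (z : Fin n → ℂ) :
    MvPolynomial.eval z (linPoly c) = ∑ i, c i * z i := by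
  simp [linPoly]

lemma lin_eq_sum (L : (Fin n → ℂ) →ₗ[ℂ] (Fin N → ℂ)) (z : Fin n → ℂ) (j : Fin N) :
    L z j = ∑ i, (L (fun k => if i = k then 1 else 0) j) * z i := by
  rw [LinearMap.pi_apply_eq_sum_univ L z, Finset.sum_apply]
  apply Finset.sum_congr rfl
  intro k _
  rw [Pi.smul_apply, smul_eq_mul, mul_comm]

lemma RatDeg.linear (he : 1 ≤ e) (L : (Fin n → ℂ) →ₗ[ℂ] (Fin N → ℂ)) : RatDeg n N e L := by
  refine ⟨fun j => linPoly (fun i => L (fun k => if i = k then 1 else 0) j), 1,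
    fun j => (linPoly_deg _).trans he, by simp, fun z _ => ⟨by simp, fun j => ?_⟩⟩
  rw [linPoly_eval, map_one, div_one]
  exact lin_eq_sum L z j

/-- substituting fractions of degree one -/
lemma homog {k : ℕ} (p : MvPolynomial (Fin n) ℂ) (hp : p.totalDegree ≤ e)
    (A : Fin n → MvPolynomial (Fin k) ℂ) (B : MvPolynomial (Fin k) ℂ)
    (hA : ∀ i, (A i).totalDegree ≤ 1) (hB : B.totalDegree ≤ 1) :
    ∃ p' : MvPolynomial (Fin k) ℂ, p'.totalDegree ≤ e ∧
      ∀ z, MvPolynomial.eval z B ≠ 0 → MvPolynomial.eval z p' = MvPolynomial.eval z B ^ e *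
        MvPolynomial.eval (fun i => MvPolynomial.eval z (A i) / MvPolynomial.eval z B) p := by
  classical
  have hle : ∀ α ∈ p.support, ∑ i, α i ≤ e := by
    intro α hα
    have := MvPolynomial.le_totalDegree hα
    rw [Finsupp.sum_fintype _ _ (fun _ => rfl)] at this
    exact this.trans hp
  refine ⟨∑ α ∈ p.support, MvPolynomial.C (p.coeff α) * ((∏ i, A i ^ α i) * B ^ (e - ∑ i, α i)),
    ?_, ?_⟩
  · refine MvPolynomial.totalDegree_finsetSum_le ?_
    intro α hα
    refine (MvPolynomial.totalDegree_mul _ _).trans ?_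
    rw [MvPolynomial.totalDegree_C, zero_add]
    refine (MvPolynomial.totalDegree_mul _ _).trans ?_
    have h1 : (∏ i, A i ^ α i).totalDegree ≤ ∑ i, α i := by
      refine (MvPolynomial.totalDegree_finsetProd _ _).trans ?_
      apply Finset.sum_le_sum
      intro i _
      refine (MvPolynomial.totalDegree_pow _ _).trans ?_
      calc α i * (A i).totalDegree ≤ α i * 1 := Nat.mul_le_mul_left _ (hA i)
        _ = α i := mul_one _
    have h2 : (B ^ (e - ∑ i, α i)).totalDegree ≤ e - ∑ i, α i := by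
      refine (MvPolynomial.totalDegree_pow _ _).trans ?_
      calc (e - ∑ i, α i) * B.totalDegree ≤ (e - ∑ i, α i) * 1 := Nat.mul_le_mul_left _ hB
        _ = _ := mul_one _
    have h3 := hle α hα
    omega
  · intro z hz
    rw [MvPolynomial.eval_eq' (fun i => MvPolynomial.eval z (A i) / MvPolynomial.eval z B) p,
      map_sum, Finset.mul_sum]
    apply Finset.sum_congr rfl
    intro α hα
    rw [map_mul, map_mul, map_prod, MvPolynomial.eval_C, map_pow]
    simp only [map_pow, div_pow]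
    rw [Finset.prod_div_distrib, Finset.prod_pow_eq_pow_sum]
    have h3 := hle α hα
    have h4 : MvPolynomial.eval z B ^ e = MvPolynomial.eval z B ^ (e - ∑ i, α i) *
        MvPolynomial.eval z B ^ (∑ i, α i) := by
      rw [← pow_add]; congr 1; omega
    rw [h4]
    have h5 : MvPolynomial.eval z B ^ (∑ i, α i) ≠ 0 := pow_ne_zero _ hz
    field_simp

lemma RatDeg.comp_frac {f : (Fin n → ℂ) → (Fin N → ℂ)} (h : RatDeg n N e f)
    {T : (Fin M → ℂ) → (Fin n → ℂ)} (hT : MapsTo T (Ball M) (Ball n)) (h1 : RatDeg M n 1 T) :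
    RatDeg M N e (f ∘ T) := by
  obtain ⟨P, Q, hP, hQ, hr⟩ := h
  obtain ⟨A, B, hA, hB, hrT⟩ := h1
  choose P' hP' hP'e using fun j => homog (P j) (hP j) A B hA hB
  obtain ⟨Q', hQ', hQ'e⟩ := homog Q hQ A B hA hB
  refine ⟨P', Q', hP', hQ', fun z hz => ?_⟩
  obtain ⟨hB0, hTz⟩ := hrT z hz
  have hTe : (fun i => MvPolynomial.eval z (A i) / MvPolynomial.eval z B) = T z := by
    funext i; exact (hTz i).symm
  obtain ⟨h2, h3⟩ := hr _ (hT hz)
  rw [hQ'e z hB0, hTe]
  refine ⟨mul_ne_zero (pow_ne_zero _ hB0) h2, fun j => ?_⟩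
  rw [hP'e j z hB0, hTe, mul_div_mul_left _ _ (pow_ne_zero _ hB0)]
  exact h3 j

lemma RatDeg.left_linear {f : (Fin n → ℂ) → (Fin N → ℂ)} (h : RatDeg n N e f)
    (V : (Fin N → ℂ) →ₗ[ℂ] (Fin M → ℂ)) : RatDeg n M e (V ∘ f) := by
  obtain ⟨P, Q, hP, hQ, hr⟩ := h
  refine ⟨fun j => ∑ i, MvPolynomial.C (V (fun k => if i = k then 1 else 0) j) * P i, Q, ?_, hQ,
    fun z hz => ⟨(hr z hz).1, fun j => ?_⟩⟩
  · intro j
    refine MvPolynomial.totalDegree_finsetSum_le ?_
    intro i _
    refine (MvPolynomial.totalDegree_mul _ _).trans ?_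
    rw [MvPolynomial.totalDegree_C, zero_add]
    exact hP i
  · simp only [Function.comp]
    rw [lin_eq_sum V (f z) j, map_sum, Finset.sum_div]
    apply Finset.sum_congr rfl
    intro i _
    rw [(hr z hz).2 i, map_mul, MvPolynomial.eval_C, mul_div_assoc]

lemma RatDeg.phi {s : ℝ} (hs : |s| < 1) : RatDeg (m + 1) (m + 1) 1 (phi m s) := by
  refine ⟨Fin.cons (MvPolynomial.X 0 + MvPolynomial.C (s : ℂ))
    (fun i => MvPolynomial.C (Real.sqrt (1 - s ^ 2) : ℂ) * MvPolynomial.X i.succ),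
    1 + MvPolynomial.C (s : ℂ) * MvPolynomial.X 0, ?_, ?_, fun z hz => ⟨?_, ?_⟩⟩
  · intro i
    refine Fin.cases ?_ (fun i => ?_) i
    · simp only [Fin.cons_zero]
      refine (MvPolynomial.totalDegree_add _ _).trans ?_
      simp [MvPolynomial.totalDegree_X, MvPolynomial.totalDegree_C]
    · simp only [Fin.cons_succ]
      refine (MvPolynomial.totalDegree_mul _ _).trans ?_
      rw [MvPolynomial.totalDegree_C, MvPolynomial.totalDegree_X]
  · refine (MvPolynomial.totalDegree_add _ _).trans ?_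
    apply max_le (by simp)
    refine (MvPolynomial.totalDegree_mul _ _).trans ?_
    rw [MvPolynomial.totalDegree_C, MvPolynomial.totalDegree_X]
  · simpa using one_add_mul_ne hs (norm_zero_le_one (Ball_subset _ hz))
  · intro i
    refine Fin.cases ?_ (fun i => ?_) i
    · simp [BallMap.phi]
    · simp [BallMap.phi]

lemma RatDeg.left_phi {f : (Fin n → ℂ) → (Fin (M + 1) → ℂ)} (h : RatDeg n (M + 1) e f)
    (hf : MapsTo f (Ball n) (Ball (M + 1))) {s : ℝ} (hs : |s| < 1) :
    RatDeg n (M + 1) e (BallMap.phi M s ∘ f) := by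
  obtain ⟨P, Q, hP, hQ, hr⟩ := h
  refine ⟨Fin.cons (P 0 + MvPolynomial.C (s : ℂ) * Q)
    (fun i => MvPolynomial.C (Real.sqrt (1 - s ^ 2) : ℂ) * P i.succ),
    Q + MvPolynomial.C (s : ℂ) * P 0, ?_, ?_, fun z hz => ?_⟩
  · intro i
    refine Fin.cases ?_ (fun i => ?_) i
    · simp only [Fin.cons_zero]
      refine (MvPolynomial.totalDegree_add _ _).trans (max_le (hP 0) ?_)
      refine (MvPolynomial.totalDegree_mul _ _).trans ?_
      rw [MvPolynomial.totalDegree_C, zero_add]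
      exact hQ
    · simp only [Fin.cons_succ]
      refine (MvPolynomial.totalDegree_mul _ _).trans ?_
      rw [MvPolynomial.totalDegree_C, zero_add]
      exact hP _
  · refine (MvPolynomial.totalDegree_add _ _).trans (max_le hQ ?_)
    refine (MvPolynomial.totalDegree_mul _ _).trans ?_
    rw [MvPolynomial.totalDegree_C, zero_add]
    exact hP _
  · obtain ⟨h1, h2⟩ := hr z hz
    have h3 : (1 + (s : ℂ) * f z 0) ≠ 0 :=
      one_add_mul_ne hs (norm_zero_le_one (Ball_subset _ (hf hz)))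
    have h4 : MvPolynomial.eval z (Q + MvPolynomial.C (s : ℂ) * P 0) =
        MvPolynomial.eval z Q * (1 + (s : ℂ) * f z 0) := by
      rw [h2 0]
      simp only [map_add, map_mul, MvPolynomial.eval_C]
      field_simp
    rw [h4]
    refine ⟨mul_ne_zero h1 h3, fun i => ?_⟩
    rw [eq_div_iff (mul_ne_zero h1 h3)]
    refine Fin.cases ?_ (fun i => ?_) i
    · simp only [Function.comp, BallMap.phi, Fin.cons_zero, map_add, map_mul, MvPolynomial.eval_C]
      rw [div_mul_eq_mul_div, div_eq_iff h3, h2 0]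
      field_simp
    · simp only [Function.comp, BallMap.phi, Fin.cons_succ, map_mul, MvPolynomial.eval_C]
      rw [div_mul_eq_mul_div, div_eq_iff h3, h2 i.succ]
      field_simp

end Pool.TH855.BallMap
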